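import Mathlib

/-!
# Achronal lifts: definitions for the coefficient theorem for all `n`

`AchLift L F G R`: on the unit disc `F' = R L'`, `G' = R^2 L'`, `Im R > 0`, and the difference form
`(Im ΔF)^2 - Im ΔG * Im ΔL` is positive for all pairs of different points.
-/

namespace AllN24

open Complex Metric

/-- the difference form `K(x,y) = (Im (F x - F y))^2 - Im (G x - G y) * Im (L x - L y)` -/
noncomputable def K (L F G : ℂ → ℂ) (x y : ℂ) : ℝ :=
  ((F x - F y).im) ^ 2 - (G x - G y).im * (L x - L y).im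

/-- `(L,F,G,R)` is an achronal lift of `L` on the unit disc -/
structure AchLift (L F G R : ℂ → ℂ) : Prop where
  dL : DifferentiableOn ℂ L (ball 0 1)
  dF : DifferentiableOn ℂ F (ball 0 1)
  dG : DifferentiableOn ℂ G (ball 0 1)
  dR : DifferentiableOn ℂ R (ball 0 1)
  hF : ∀ z ∈ ball (0:ℂ) 1, deriv F z = R z * deriv L z
  hG : ∀ z ∈ ball (0:ℂ) 1, deriv G z = R z ^ 2 * deriv L z
  hR : ∀ z ∈ ball (0:ℂ) 1, 0 < (R z).im
  hL : ∀ z ∈ ball (0:ℂ) 1, deriv L z ≠ 0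
  hK : ∀ x ∈ ball (0:ℂ) 1, ∀ y ∈ ball (0:ℂ) 1, x ≠ y → 0 < K L F G x y

/-- the growth function `kap t = t (1-t)^{-2} sqrt (1+t^2/3)` (so `kap^2 = (E^3-1)(E-1)/12`,
`E = (1+t)/(1-t)`) -/
noncomputable def kap (t : ℝ) : ℝ := t / (1 - t) ^ 2 * Real.sqrt (1 + t ^ 2 / 3)

end AllN24
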