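import Pool.Agent.HU26.Stokes2

/-!
# The Hardy-Stein identity

For `L` holomorphic on the unit disc and `φ` twice differentiable, the mean `m(t)` of
`φ (Im L)` on the circle of radius `t` satisfies `t m'(t) = (1 / 2π) ∫_{|z| < t} φ''(Im L) |L'|²`.
-/

open Complex Set MeasureTheory Filter Topology Metric
open scoped Real
open Pool.Agent.HU26

namespace AllN24

/-- the expression `t m'(t)` -/
noncomputable def mg_N (L : ℂ → ℂ) (φ1 : ℝ → ℝ) (t : ℝ) : ℝ :=
  mean fun x => φ1 (L (pt t x)).im * (deriv L (pt t x) * pt t x).im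

/-- the mean of `φ (Im L)` -/
noncomputable def mg_m (L : ℂ → ℂ) (φ : ℝ → ℝ) (t : ℝ) : ℝ :=
  mean fun x => φ (L (pt t x)).im

section
variable {L : ℂ → ℂ} {φ φ1 φ2 : ℝ → ℝ}

theorem mg_hda {L : ℂ → ℂ} (dL : DifferentiableOn ℂ L (ball 0 1)) {z : ℂ}
    (hz : z ∈ ball (0 : ℂ) 1) : HasDerivAt L (deriv L z) z :=
  ((dL z hz).differentiableAt (isOpen_ball.mem_nhds hz)).hasDerivAt

theorem mg_comp_pt {Z : Type*} [TopologicalSpace Z] {f : ℂ → Z} (hf : ContinuousOn f (ball 0 1)) :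
    ContinuousOn (fun p : ℝ × ℝ => f (pt p.1 p.2)) (Ioo (-1) 1 ×ˢ univ) :=
  hf.comp continuous_pt.continuousOn (mapsTo_pt 1)

theorem mg_im_fst (dL : DifferentiableOn ℂ L (ball 0 1)) {t : ℝ} (x : ℝ) (ht : t ∈ Ioo (-1) 1) :
    HasDerivAt (fun t => (L (pt t x)).im) (deriv L (pt t x) * cexp (x * I)).im t := by
  have h1 := (mg_hda dL (pt_mem_ball x ht)).comp_of_eq t (pt_hasDerivAt_fst t x) rfl
  exact (Complex.imCLM.hasFDerivAt (x := L (pt t x))).comp_hasDerivAt t h1

theorem mg_im_snd (dL : DifferentiableOn ℂ L (ball 0 1)) {t : ℝ} (x : ℝ) (ht : t ∈ Ioo (-1) 1) :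
    HasDerivAt (fun x => (L (pt t x)).im) (deriv L (pt t x) * pt t x).re x := by
  have h1 := (mg_hda dL (pt_mem_ball x ht)).comp_of_eq x (pt_hasDerivAt_snd t x) rfl
  have h2 := (Complex.imCLM.hasFDerivAt (x := L (pt t x))).comp_hasDerivAt x h1
  refine h2.congr_deriv ?_
  show (deriv L (pt t x) * (I * pt t x)).im = _
  rw [show deriv L (pt t x) * (I * pt t x) = I * (deriv L (pt t x) * pt t x) by ring,
    Complex.I_mul_im]

/-- derivative in `t` of `Im (L' z)` -/
theorem mg_zim_fst (dL : DifferentiableOn ℂ L (ball 0 1)) {t : ℝ} (x : ℝ)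
    (ht : t ∈ Ioo (-1) 1) :
    HasDerivAt (fun t => (deriv L (pt t x) * pt t x).im)
      (cexp (x * I) * (deriv L (pt t x) + pt t x * deriv (deriv L) (pt t x))).im t := by
  have dL' : DifferentiableOn ℂ (deriv L) (ball 0 1) := dL.deriv isOpen_ball
  have h1 := (mg_hda dL' (pt_mem_ball x ht)).comp_of_eq t (pt_hasDerivAt_fst t x) rfl
  have h2 := h1.mul (pt_hasDerivAt_fst t x)
  have h3 := (Complex.imCLM.hasFDerivAt
    (x := deriv L (pt t x) * pt t x)).comp_hasDerivAt t h2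
  refine h3.congr_deriv ?_
  show (deriv (deriv L) (pt t x) * cexp (x * I) * pt t x + deriv L (pt t x) * cexp (x * I)).im = _
  congr 1
  ring

/-- derivative in `x` of `Re (L' e^{ix})` -/
theorem mg_re_snd (dL : DifferentiableOn ℂ L (ball 0 1)) {t : ℝ} (x : ℝ)
    (ht : t ∈ Ioo (-1) 1) :
    HasDerivAt (fun x : ℝ => (deriv L (pt t x) * cexp (x * I)).re)
      (-(cexp (x * I) * (deriv L (pt t x) + pt t x * deriv (deriv L) (pt t x))).im) x := by
  have dL' : DifferentiableOn ℂ (deriv L) (ball 0 1) := dL.deriv isOpen_ball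
  have h1 := (mg_hda dL' (pt_mem_ball x ht)).comp_of_eq x (pt_hasDerivAt_snd t x) rfl
  have he : HasDerivAt (fun x : ℝ => cexp (x * I)) (I * cexp (x * I)) x := by
    have h1 : HasDerivAt (fun x : ℝ => ((x : ℂ) * I)) I x := by
      have := (Complex.ofRealCLM.hasDerivAt (x := x)).mul_const I
      simpa using this
    exact h1.cexp.congr_deriv (by ring)
  have h2 := h1.mul he
  have h3 := (Complex.reCLM.hasFDerivAt
    (x := deriv L (pt t x) * cexp (x * I))).comp_hasDerivAt x h2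
  refine h3.congr_deriv ?_
  show (deriv (deriv L) (pt t x) * (I * pt t x) * cexp (x * I) +
    deriv L (pt t x) * (I * cexp (x * I))).re = _
  rw [show deriv (deriv L) (pt t x) * (I * pt t x) * cexp (x * I) +
    deriv L (pt t x) * (I * cexp (x * I)) =
    I * (cexp (x * I) * (deriv L (pt t x) + pt t x * deriv (deriv L) (pt t x))) by ring,
    Complex.I_mul_re]

theorem mg_m_deriv (dL : DifferentiableOn ℂ L (ball 0 1)) (h1 : ∀ y, HasDerivAt φ (φ1 y) y)
    (hc1 : Continuous φ1) {t : ℝ} (ht : t ∈ Ioo (-1) 1) :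
    HasDerivAt (mg_m L φ)
      (mean fun x => φ1 (L (pt t x)).im * (deriv L (pt t x) * cexp (x * I)).im) t := by
  have hc : Continuous φ := continuous_iff_continuousAt.2 fun y => (h1 y).continuousAt
  have dL' : DifferentiableOn ℂ (deriv L) (ball 0 1) := dL.deriv isOpen_ball
  have hcL := mg_comp_pt dL.continuousOn
  have hcL' := mg_comp_pt dL'.continuousOn
  have he : ContinuousOn (fun p : ℝ × ℝ => cexp ((p.2 : ℂ) * I)) (Ioo (-1) 1 ×ˢ univ) := by
    fun_prop
  refine hasDerivAt_mean (F := fun t x => φ (L (pt t x)).im)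
    (F' := fun t x => φ1 (L (pt t x)).im * (deriv L (pt t x) * cexp (x * I)).im) ht ?_ ?_ ?_
  · intro s hs x
    exact (h1 _).comp s (mg_im_fst dL x hs)
  · intro s hs
    exact sliceR (G := fun t x => φ (L (pt t x)).im) (hc.comp_continuousOn (cim hcL)) hs
  · exact (hc1.comp_continuousOn (cim hcL)).mul (cim (hcL'.mul he))

theorem mg_N_eq (L : ℂ → ℂ) (φ1 : ℝ → ℝ) (t : ℝ) :
    mg_N L φ1 t = t * mean fun x => φ1 (L (pt t x)).im * (deriv L (pt t x) * cexp (x * I)).im := by
  unfold mg_N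
  rw [← mean_const_mul]
  congr 1
  funext x
  have : deriv L (pt t x) * pt t x = (t : ℂ) * (deriv L (pt t x) * cexp (x * I)) := by
    unfold pt; ring
  rw [this, Complex.im_ofReal_mul]
  ring

theorem mg_N_deriv (dL : DifferentiableOn ℂ L (ball 0 1)) (h2 : ∀ y, HasDerivAt φ1 (φ2 y) y)
    (hc2 : Continuous φ2) {t : ℝ} (ht : t ∈ Ioo (-1) 1) :
    HasDerivAt (mg_N L φ1)
      (mean fun x => φ2 (L (pt t x)).im * ‖deriv L (pt t x)‖ ^ 2 * t) t := by
  have hc1 : Continuous φ1 := continuous_iff_continuousAt.2 fun y => (h2 y).continuousAt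
  have dL' : DifferentiableOn ℂ (deriv L) (ball 0 1) := dL.deriv isOpen_ball
  have dL'' : DifferentiableOn ℂ (deriv (deriv L)) (ball 0 1) := dL'.deriv isOpen_ball
  have hcL := mg_comp_pt dL.continuousOn
  have hcL' := mg_comp_pt dL'.continuousOn
  have hcL'' := mg_comp_pt dL''.continuousOn
  have he : ContinuousOn (fun p : ℝ × ℝ => cexp ((p.2 : ℂ) * I)) (Ioo (-1) 1 ×ˢ univ) := by
    fun_prop
  have hp : ContinuousOn (fun p : ℝ × ℝ => pt p.1 p.2) (Ioo (-1) 1 ×ˢ univ) :=
    continuous_pt.continuousOn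
  -- the two functions
  let B : ℝ → ℝ → ℝ := fun t x => φ2 (L (pt t x)).im * (deriv L (pt t x) * cexp (x * I)).im *
      (deriv L (pt t x) * pt t x).im + φ1 (L (pt t x)).im *
      (cexp (x * I) * (deriv L (pt t x) + pt t x * deriv (deriv L) (pt t x))).im
  let A : ℝ → ℝ → ℝ := fun t x => φ2 (L (pt t x)).im * (deriv L (pt t x) * pt t x).re *
      (deriv L (pt t x) * cexp (x * I)).re + φ1 (L (pt t x)).im *
      (-(cexp (x * I) * (deriv L (pt t x) + pt t x * deriv (deriv L) (pt t x))).im)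
  have hBc : ContinuousOn (fun p : ℝ × ℝ => B p.1 p.2) (Ioo (-1) 1 ×ˢ univ) :=
    ((((hc2.comp_continuousOn (cim hcL)).mul (cim (hcL'.mul he))).mul (cim (hcL'.mul hp))).add
      ((hc1.comp_continuousOn (cim hcL)).mul (cim (he.mul (hcL'.add (hp.mul hcL''))))))
  have hAc : ContinuousOn (fun p : ℝ × ℝ => A p.1 p.2) (Ioo (-1) 1 ×ˢ univ) :=
    ((((hc2.comp_continuousOn (cim hcL)).mul (cre (hcL'.mul hp))).mul (cre (hcL'.mul he))).add
      ((hc1.comp_continuousOn (cim hcL)).mul (cim (he.mul (hcL'.add (hp.mul hcL'')))).neg))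
  have hB : HasDerivAt (mg_N L φ1) (mean (B t)) t := by
    refine hasDerivAt_mean (F := fun t x => φ1 (L (pt t x)).im * (deriv L (pt t x) * pt t x).im)
      (F' := B) ht ?_ ?_ hBc
    · intro s hs x
      exact ((h2 _).comp s (mg_im_fst dL x hs)).mul (mg_zim_fst dL x hs)
    · intro s hs
      exact sliceR (G := fun t x => φ1 (L (pt t x)).im * (deriv L (pt t x) * pt t x).im)
        ((hc1.comp_continuousOn (cim hcL)).mul (cim (hcL'.mul hp))) hs
  have hA : mean (A t) = 0 := by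
    have h3 : ∀ x ∈ uIcc (-π) π, HasDerivAt
        (fun x => φ1 (L (pt t x)).im * (deriv L (pt t x) * cexp (x * I)).re) (A t x) x := by
      intro x _
      exact ((h2 _).comp x (mg_im_snd dL x ht)).mul (mg_re_snd dL x ht)
    have h4 := intervalIntegral.integral_eq_sub_of_hasDerivAt h3
      ((sliceR hAc ht).intervalIntegrable _ _)
    unfold mean
    rw [h4]
    have h5 : cexp ((π : ℝ) * I) = cexp (((-π : ℝ) : ℂ) * I) := by
      rw [Complex.exp_eq_exp_iff_exists_int]
      exact ⟨1, by push_cast; ring⟩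
    rw [pt_pi, h5, sub_self, mul_zero]
  refine hB.congr_deriv ?_
  have h6 : (fun x => φ2 (L (pt t x)).im * ‖deriv L (pt t x)‖ ^ 2 * t) =
      fun x => B t x + A t x := by
    funext x
    have e1 : deriv L (pt t x) * pt t x = (t : ℂ) * (deriv L (pt t x) * cexp (x * I)) := by
      unfold pt; ring
    have e2 : ‖deriv L (pt t x)‖ ^ 2 = (deriv L (pt t x) * cexp (x * I)).re ^ 2 +
        (deriv L (pt t x) * cexp (x * I)).im ^ 2 := by
      have e3 : ‖deriv L (pt t x)‖ = ‖deriv L (pt t x) * cexp (x * I)‖ := by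
        rw [norm_mul, Complex.norm_exp_ofReal_mul_I, mul_one]
      rw [e3, Complex.sq_norm, Complex.normSq_apply]
      ring
    simp only [A, B]
    rw [e1, e2, Complex.im_ofReal_mul, Complex.re_ofReal_mul]
    ring
  rw [h6, mean_add (sliceR hBc ht) (sliceR hAc ht), hA, add_zero]

/-- polar coordinates on the disc of radius `r` -/
theorem mg_polar {G : ℂ → ℝ} (hG : ContinuousOn G (ball 0 1)) {r : ℝ} (hr0 : 0 < r)
    (hr1 : r < 1) :
    ∫ t in (0:ℝ)..r, mean (fun x => G (pt t x) * t) = (1 / (2 * π)) * ∫ z in ball (0 : ℂ) r, G z := by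
  have h1 := Complex.integral_comp_polarCoord_symm ((ball (0 : ℂ) r).indicator G)
  rw [integral_indicator measurableSet_ball] at h1
  rw [← h1]
  have hsub : Ioo (0 : ℝ) r ×ˢ Ioo (-π) π ⊆ polarCoord.target := by
    rw [polarCoord_target]
    exact prod_mono Ioo_subset_Ioi_self le_rfl
  have hsymm : ∀ p : ℝ × ℝ, Complex.polarCoord.symm p = pt p.1 p.2 := by
    intro p
    rw [Complex.polarCoord_symm_apply]
    unfold pt
    rw [Complex.exp_mul_I]
    push_cast
    ring
  rw [setIntegral_eq_of_subset_of_forall_sdiff_eq_zero (s := Ioo (0 : ℝ) r ×ˢ Ioo (-π) π)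
    polarCoord.open_target.measurableSet hsub]
  · have h2 : ∫ p in Ioo (0 : ℝ) r ×ˢ Ioo (-π) π,
        p.1 • (ball (0 : ℂ) r).indicator G (Complex.polarCoord.symm p)
        = ∫ p in Ioo (0 : ℝ) r ×ˢ Ioo (-π) π, G (pt p.1 p.2) * p.1 := by
      apply setIntegral_congr_fun (measurableSet_Ioo.prod measurableSet_Ioo)
      intro p hp
      simp only
      rw [hsymm, indicator_of_mem, smul_eq_mul, mul_comm]
      rw [mem_ball_zero_iff, norm_pt, abs_of_pos hp.1.1]
      exact hp.1.2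
    rw [h2]
    rw [Measure.volume_eq_prod, setIntegral_prod]
    · rw [intervalIntegral.integral_of_le hr0.le, ← integral_const_mul,
        integral_Ioc_eq_integral_Ioo]
      apply setIntegral_congr_fun measurableSet_Ioo
      intro t ht
      simp only
      unfold mean
      rw [intervalIntegral.integral_of_le negpi_lt_pi.le, integral_Ioc_eq_integral_Ioo]
    · rw [← Measure.volume_eq_prod]
      have hcomp : IsCompact (Icc (0 : ℝ) r ×ˢ Icc (-π) π) := isCompact_Icc.prod isCompact_Icc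
      have h3 : ContinuousOn (fun p : ℝ × ℝ => G (pt p.1 p.2) * p.1)
          (Icc (0 : ℝ) r ×ˢ Icc (-π) π) := by
        have h4 : ContinuousOn (fun p : ℝ × ℝ => G (pt p.1 p.2)) (Ioo (-1) 1 ×ˢ univ) :=
          mg_comp_pt hG
        have h5 := h4.mono (prod_mono (s₁ := Icc (0 : ℝ) r) (t₁ := Icc (-π) π)
          (fun t ht => ⟨by linarith [ht.1], by linarith [ht.2]⟩) (subset_univ _))
        exact h5.mul (by fun_prop)
      exact (h3.integrableOn_compact hcomp).mono_set
        (prod_mono Ioo_subset_Icc_self Ioo_subset_Icc_self)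
  · intro p hp
    rw [polarCoord_target] at hp
    rw [hsymm, indicator_of_notMem, smul_zero]
    intro hb
    apply hp.2
    rw [mem_ball_zero_iff, norm_pt, abs_of_pos hp.1.1] at hb
    exact ⟨⟨hp.1.1, hb⟩, hp.1.2⟩

/-- the Hardy-Stein identity -/
theorem mg_stein (dL : DifferentiableOn ℂ L (ball 0 1)) (h2 : ∀ y, HasDerivAt φ1 (φ2 y) y)
    (hc2 : Continuous φ2) {r : ℝ} (hr0 : 0 < r) (hr1 : r < 1) :
    mg_N L φ1 r = (1 / (2 * π)) *
      ∫ z in ball (0 : ℂ) r, φ2 (L z).im * ‖deriv L z‖ ^ 2 := by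
  have dL' : DifferentiableOn ℂ (deriv L) (ball 0 1) := dL.deriv isOpen_ball
  have hG : ContinuousOn (fun z => φ2 (L z).im * ‖deriv L z‖ ^ 2) (ball (0 : ℂ) 1) :=
    (hc2.comp_continuousOn (Complex.continuous_im.comp_continuousOn dL.continuousOn)).mul
      (dL'.continuousOn.norm.pow 2)
  rw [← mg_polar hG hr0 hr1]
  have h1 : ∀ t ∈ uIcc (0 : ℝ) r, HasDerivAt (mg_N L φ1)
      (mean fun x => φ2 (L (pt t x)).im * ‖deriv L (pt t x)‖ ^ 2 * t) t := by
    intro t ht
    rw [uIcc_of_le hr0.le] at ht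
    exact mg_N_deriv dL h2 hc2 ⟨by linarith [ht.1], by linarith [ht.2]⟩
  have hcm : ContinuousOn (fun t => mean fun x => φ2 (L (pt t x)).im *
      ‖deriv L (pt t x)‖ ^ 2 * t) (Ioo (-1) 1) := by
    apply continuousOn_mean (F := fun t x => φ2 (L (pt t x)).im * ‖deriv L (pt t x)‖ ^ 2 * t)
    exact (mg_comp_pt hG).mul (by fun_prop)
  have hsub : uIcc (0 : ℝ) r ⊆ Ioo (-1) 1 := by
    rw [uIcc_of_le hr0.le]
    exact fun t ht => ⟨by linarith [ht.1], by linarith [ht.2]⟩
  have h3 := intervalIntegral.integral_eq_sub_of_hasDerivAt h1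
    ((hcm.mono hsub).intervalIntegrable)
  have h4 : mg_N L φ1 0 = 0 := by
    rw [mg_N_eq, zero_mul]
  rw [h4, sub_zero] at h3
  rw [← h3]

end

end AllN24
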