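import Pool.Agent.AllN24.MgPhi
import Pool.Agent.AllN24.MgStein

/-!
# The area bound
-/

open Complex Set MeasureTheory Filter Topology Metric
open scoped Real
open Pool.Agent.HU26

namespace AllN24

/-- the integral of `mg_psi ε (Im w)` over a rectangle -/
theorem mg_rect {ε W : ℝ} (hε : 0 < ε) (hW : 0 ≤ W) :
    ∫ w in {w : ℂ | |w.re| ≤ W ∧ |w.im| ≤ ε}, mg_psi ε w.im = 4 * W := by
  have h1 := (Complex.volume_preserving_equiv_real_prod).setIntegral_preimage_emb
    (Complex.measurableEquivRealProd.measurableEmbedding) (fun p : ℝ × ℝ => mg_psi ε p.2)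
    (Icc (-W) W ×ˢ Icc (-ε) ε)
  have h2 : Complex.measurableEquivRealProd ⁻¹' (Icc (-W) W ×ˢ Icc (-ε) ε) =
      {w : ℂ | |w.re| ≤ W ∧ |w.im| ≤ ε} := by
    ext w
    simp only [mem_preimage, Complex.measurableEquivRealProd_apply, mem_prod, mem_Icc,
      mem_ofPred_eq, abs_le]
  rw [h2] at h1
  simp only [Complex.measurableEquivRealProd_apply] at h1
  rw [h1]
  have h3 := setIntegral_prod_mul (μ := (volume : Measure ℝ)) (ν := (volume : Measure ℝ))
    (fun _ : ℝ => (1 : ℝ)) (fun y => mg_psi ε y) (Icc (-W) W) (Icc (-ε) ε)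
  rw [← Measure.volume_eq_prod] at h3
  simp only [one_mul] at h3
  rw [h3, integral_Icc_eq_integral_Ioc, integral_Icc_eq_integral_Ioc,
    ← intervalIntegral.integral_of_le (by linarith), ← intervalIntegral.integral_of_le (by linarith),
    mg_psi_int_full hε]
  simp
  ring

theorem mg_area {L F R : ℂ → ℂ} (dL : DifferentiableOn ℂ L (ball 0 1))
    (dF : DifferentiableOn ℂ F (ball 0 1)) (dR : DifferentiableOn ℂ R (ball 0 1))
    (hF : ∀ z ∈ ball (0 : ℂ) 1, deriv F z = R z * deriv L z)
    (hR : ∀ z ∈ ball (0 : ℂ) 1, 0 < (R z).im)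
    (hinj : ∀ x ∈ ball (0 : ℂ) 1, ∀ y ∈ ball (0 : ℂ) 1, (F x).im = (F y).im →
      (L x).im = (L y).im → x = y)
    {r : ℝ} (hr1 : r < 1) {ε W c : ℝ} (hε : 0 < ε) (hW0 : 0 ≤ W)
    (hW : ∀ z ∈ ball (0 : ℂ) r, |(L z).im| ≤ ε → |(F z).im| ≤ W) (hc : 0 < c)
    (hcR : ∀ z ∈ ball (0 : ℂ) r, c ≤ (R z).im) :
    ∫ z in ball (0 : ℂ) r, mg_psi ε (L z).im * ‖deriv L z‖ ^ 2 ≤ 4 * W / c := by
  have hsub : ball (0 : ℂ) r ⊆ ball 0 1 := ball_subset_ball hr1.le
  have dL' : DifferentiableOn ℂ (deriv L) (ball 0 1) := dL.deriv isOpen_ball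
  set Φ : ℂ → ℂ := fun z => ((F z).im : ℂ) + ((L z).im : ℂ) * I with hΦ
  have hre : ∀ z, (Φ z).re = (F z).im := fun z => by simp [hΦ]
  have him : ∀ z, (Φ z).im = (L z).im := fun z => by simp [hΦ]
  -- derivative
  have hder : ∀ z ∈ ball (0 : ℂ) 1, ∃ A : ℂ →L[ℝ] ℂ, HasFDerivAt Φ A z ∧
      A.det = (R z).im * ‖deriv L z‖ ^ 2 := by
    intro z hz
    have h3 := (mg_hda dF hz).hasFDerivAt.restrictScalars ℝ
    have h4 := (mg_hda dL hz).hasFDerivAt.restrictScalars ℝ
    have h5 := Complex.ofRealCLM.hasFDerivAt.comp z (Complex.imCLM.hasFDerivAt.comp z h3)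
    have h6 := Complex.ofRealCLM.hasFDerivAt.comp z (Complex.imCLM.hasFDerivAt.comp z h4)
    have h7 := h5.add (h6.mul_const I)
    refine ⟨_, h7, ?_⟩
    rw [ContinuousLinearMap.det, det_clm]
    rw [hF z hz]
    simp [Complex.sq_norm, Complex.normSq_apply]
    ring
  choose! A hA using hder
  have hinjΦ : InjOn Φ (ball 0 r) := by
    intro x hx y hy hxy
    refine hinj x (hsub hx) y (hsub hy) ?_ ?_
    · rw [← hre, ← hre, hxy]
    · rw [← him, ← him, hxy]
  have hcov := integral_image_eq_integral_abs_det_fderiv_smul volume measurableSet_ball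
    (fun z hz => (hA z (hsub hz)).1.hasFDerivWithinAt) hinjΦ (fun w : ℂ => mg_psi ε w.im)
  have hcov' : ∫ z in ball (0 : ℂ) r, (R z).im * (mg_psi ε (L z).im * ‖deriv L z‖ ^ 2) =
      ∫ w in Φ '' ball 0 r, mg_psi ε w.im := by
    rw [hcov]
    apply setIntegral_congr_fun measurableSet_ball
    intro z hz
    simp only
    have h1 := hR z (hsub hz)
    rw [(hA z (hsub hz)).2, abs_of_nonneg (by positivity), smul_eq_mul, him]
    ring
  -- the image is in the rectangle, up to zeros of the integrand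
  have hmeas : MeasurableSet (Φ '' ball (0 : ℂ) r) :=
    measurable_image_of_fderivWithin measurableSet_ball
      (fun z hz => (hA z (hsub hz)).1.hasFDerivWithinAt) hinjΦ
  set Q : Set ℂ := {w : ℂ | |w.re| ≤ W ∧ |w.im| ≤ ε} with hQ
  have hQm : MeasurableSet Q := by
    have h1 : IsClosed {w : ℂ | |w.re| ≤ W} := isClosed_le (by fun_prop) (by fun_prop)
    have h2 : IsClosed {w : ℂ | |w.im| ≤ ε} := isClosed_le (by fun_prop) (by fun_prop)
    exact (h1.inter h2).measurableSet
  have hQc : IsCompact Q := by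
    refine Metric.isCompact_of_isClosed_isBounded ?_ ?_
    · have h1 : IsClosed {w : ℂ | |w.re| ≤ W} := isClosed_le (by fun_prop) (by fun_prop)
      have h2 : IsClosed {w : ℂ | |w.im| ≤ ε} := isClosed_le (by fun_prop) (by fun_prop)
      exact h1.inter h2
    · rw [isBounded_iff_forall_norm_le]
      exact ⟨W + ε, fun w hw => (Complex.norm_le_abs_re_add_abs_im w).trans
        (add_le_add hw.1 hw.2)⟩
  have hcont : Continuous fun w : ℂ => mg_psi ε w.im := (mg_psi_cont ε).comp Complex.continuous_im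
  have hint : Integrable (Q.indicator fun w : ℂ => mg_psi ε w.im) :=
    (hcont.continuousOn.integrableOn_compact hQc).integrable_indicator hQm
  have hle : ∫ w in Φ '' ball 0 r, mg_psi ε w.im ≤ 4 * W := by
    rw [← mg_rect hε hW0, ← integral_indicator hmeas, ← integral_indicator hQm]
    refine integral_mono_of_nonneg ?_ hint ?_
    · refine Eventually.of_forall fun w => ?_
      exact indicator_nonneg (fun w _ => mg_psi_nonneg hε _) w
    · refine Eventually.of_forall fun w => ?_
      show (Φ '' ball 0 r).indicator (fun w : ℂ => mg_psi ε w.im) w ≤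
        Q.indicator (fun w : ℂ => mg_psi ε w.im) w
      by_cases hw : w ∈ Φ '' ball 0 r
      · rw [indicator_of_mem hw]
        by_cases hwε : |w.im| ≤ ε
        · rw [indicator_of_mem]
          obtain ⟨z, hz, rfl⟩ := hw
          refine ⟨?_, hwε⟩
          rw [hre]
          rw [him] at hwε
          exact hW z hz hwε
        · rw [mg_psi_zero hε (le_of_lt (not_le.1 hwε))]
          exact indicator_nonneg (fun w _ => mg_psi_nonneg hε _) w
      · rw [indicator_of_notMem hw]
        exact indicator_nonneg (fun w _ => mg_psi_nonneg hε _) w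
  rw [le_div_iff₀ hc]
  refine le_trans ?_ hle
  rw [← hcov', ← integral_mul_const]
  have hcG : ContinuousOn (fun z => mg_psi ε (L z).im * ‖deriv L z‖ ^ 2) (ball (0 : ℂ) 1) :=
    ((mg_psi_cont ε).comp_continuousOn
      (Complex.continuous_im.comp_continuousOn dL.continuousOn)).mul (dL'.continuousOn.norm.pow 2)
  have hclb : closedBall (0 : ℂ) r ⊆ ball 0 1 := closedBall_subset_ball hr1
  have hi1 : IntegrableOn (fun z => mg_psi ε (L z).im * ‖deriv L z‖ ^ 2 * c) (ball (0 : ℂ) r) :=
    (((hcG.mul continuousOn_const).mono hclb).integrableOn_compact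
      (isCompact_closedBall 0 r)).mono_set ball_subset_closedBall
  have hi2 : IntegrableOn (fun z => (R z).im * (mg_psi ε (L z).im * ‖deriv L z‖ ^ 2))
      (ball (0 : ℂ) r) :=
    ((((Complex.continuous_im.comp_continuousOn dR.continuousOn).mul hcG).mono
      hclb).integrableOn_compact (isCompact_closedBall 0 r)).mono_set ball_subset_closedBall
  refine setIntegral_mono_on hi1 hi2 measurableSet_ball ?_
  intro z hz
  rw [mul_comm]
  exact mul_le_mul_of_nonneg_right (hcR z hz)
    (mul_nonneg (mg_psi_nonneg hε _) (sq_nonneg _))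

end AllN24
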