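import Pool.Agent.AllN24.Defs
import Pool.Agent.AllN24.MgArea

/-!
# Growth of the means of `|Im L|` for `L` with an achronal lift
-/

open Complex Set MeasureTheory Filter Topology Metric
open scoped Real
open Pool.Agent.HU26

namespace AllN24

theorem mg_kap_mono {s t : ℝ} (hs : 0 ≤ s) (hst : s ≤ t) (ht : t < 1) : kap s ≤ kap t := by
  unfold kap
  have h1 : 0 < 1 - t := by linarith
  have ht0 : 0 ≤ t := hs.trans hst
  have h2 : s / (1 - s) ^ 2 ≤ t / (1 - t) ^ 2 := by
    apply div_le_div₀ (by linarith) hst (by positivity)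
    gcongr
  have h3 : Real.sqrt (1 + s ^ 2 / 3) ≤ Real.sqrt (1 + t ^ 2 / 3) := by
    apply Real.sqrt_le_sqrt
    gcongr
  exact mul_le_mul h2 h3 (Real.sqrt_nonneg _) (by positivity)

theorem mg_kap_le {t : ℝ} (ht0 : 0 ≤ t) (ht : t < 1) :
    kap t ≤ t / (1 - t) ^ 2 * (2 / Real.sqrt 3) := by
  unfold kap
  have h1 : 0 < 1 - t := by linarith
  refine mul_le_mul_of_nonneg_left ?_ (by positivity)
  rw [Real.sqrt_le_left (by positivity), div_pow, Real.sq_sqrt (by norm_num)]
  nlinarith

theorem mg_kap_nonneg {t : ℝ} (ht0 : 0 ≤ t) (ht : t < 1) : 0 ≤ kap t := by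
  unfold kap
  have h1 : 0 < 1 - t := by linarith
  positivity

/-- the bound with `ε` -/
theorem mg_eps {L F G R : ℂ → ℂ} (h : AchLift L F G R)
    (hharn : ∀ z ∈ ball (0:ℂ) 1, (R 0).im * ((1 - ‖z‖) / (1 + ‖z‖)) ≤ (R z).im)
    (hK : ∀ z ∈ ball (0:ℂ) 1, K L F G z 0 ≤ (‖deriv L 0‖ * (R 0).im * kap ‖z‖) ^ 2)
    {r : ℝ} (hr0 : 0 < r) (hr1 : r < 1) :
    ∃ k : ℝ, ∀ ε : ℝ, 0 < ε → (mean fun x => |(L (pt r x) - L 0).im|) ≤
      ε + 4 * ‖deriv L 0‖ / (π * Real.sqrt 3) * (r / (1 - r) ^ 2) + k * Real.sqrt ε := by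
  have hz0 : (0 : ℂ) ∈ ball (0 : ℂ) 1 := mem_ball_self one_pos
  have hi0 : 0 < (R 0).im := h.hR 0 hz0
  have dG' : DifferentiableOn ℂ (deriv G) (ball 0 1) := h.dG.deriv isOpen_ball
  have hclb : closedBall (0 : ℂ) r ⊆ ball 0 1 := closedBall_subset_ball hr1
  -- a bound for the derivative of G
  obtain ⟨C, hC⟩ := (isCompact_closedBall (0 : ℂ) r).exists_bound_of_continuousOn
    (dG'.continuousOn.mono hclb)
  have hC0 : 0 ≤ C := (norm_nonneg _).trans (hC 0 (mem_closedBall_self hr0.le))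
  have hGb : ∀ z ∈ closedBall (0 : ℂ) r, ‖G z - G 0‖ ≤ C * ‖z‖ := by
    intro z hz
    have := Convex.norm_image_sub_le_of_norm_deriv_le (𝕜 := ℂ) (f := G) (C := C)
      (s := closedBall (0 : ℂ) r) (x := 0) (y := z)
      (fun w hw => (h.dG w (hclb hw)).differentiableAt (isOpen_ball.mem_nhds (hclb hw)))
      hC (convex_closedBall 0 r) (mem_closedBall_self hr0.le) hz
    simpa using this
  set A := ‖deriv L 0‖ * (R 0).im with hA
  have hA0 : 0 ≤ A := mul_nonneg (norm_nonneg _) hi0.le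
  -- normalised functions
  set L1 : ℂ → ℂ := fun z => L z - L 0 with hL1
  set F1 : ℂ → ℂ := fun z => F z - F 0 with hF1
  have dL1 : DifferentiableOn ℂ L1 (ball 0 1) := h.dL.sub_const _
  have dF1 : DifferentiableOn ℂ F1 (ball 0 1) := h.dF.sub_const _
  have hdL1 : deriv L1 = deriv L := by
    funext z
    simp [hL1]
  have hdF1 : deriv F1 = deriv F := by
    funext z
    simp [hF1]
  have hinj : ∀ x ∈ ball (0 : ℂ) 1, ∀ y ∈ ball (0 : ℂ) 1, (F1 x).im = (F1 y).im →
      (L1 x).im = (L1 y).im → x = y := by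
    intro x hx y hy h1 h2
    by_contra hne
    have h3 := h.hK x hx y hy hne
    unfold K at h3
    simp only [hF1, hL1, Complex.sub_im] at h1 h2
    rw [Complex.sub_im, Complex.sub_im, Complex.sub_im] at h3
    have h4 : (F x).im - (F y).im = 0 := by linarith
    have h5 : (L x).im - (L y).im = 0 := by linarith
    rw [h4, h5] at h3
    simp at h3
  refine ⟨4 * ((1 + r) / (1 - r)) / (π * (R 0).im) * Real.sqrt C * Real.sqrt r, ?_⟩
  intro ε hε
  set b1 : ℝ := 4 * ‖deriv L 0‖ / (π * Real.sqrt 3) with hb1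
  set b2 : ℝ := 4 * ((1 + r) / (1 - r)) / (π * (R 0).im) * Real.sqrt C * Real.sqrt ε with hb2
  have h1r : 0 < 1 - r := by linarith
  have hs3 : 0 < Real.sqrt 3 := Real.sqrt_pos.2 (by norm_num)
  -- bound for N
  have hN : ∀ t ∈ Ioo (0 : ℝ) r, mg_N L1 (mg_phi1 ε) t ≤
      (2 / π) * ((A * kap t + Real.sqrt C * Real.sqrt ε * Real.sqrt t) /
        ((R 0).im * ((1 - t) / (1 + t)))) := by
    intro t ht
    have ht1 : t < 1 := ht.2.trans hr1
    have h1t : 0 < 1 - t := by linarith
    have ht0 : 0 < t := ht.1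
    rw [mg_stein dL1 (mg_phi1_deriv ε) (mg_psi_cont ε) ht.1 ht1, hdL1]
    have hk0 := mg_kap_nonneg ht.1.le ht1
    have hW0 : 0 ≤ A * kap t + Real.sqrt C * Real.sqrt ε * Real.sqrt t := by positivity
    have harea := mg_area (c := (R 0).im * ((1 - t) / (1 + t))) dL1 dF1 h.dR (by
        intro z hz
        rw [hdF1, hdL1]
        exact h.hF z hz) h.hR hinj ht1 hε hW0 (by
        intro z hz hzε
        have hzt : ‖z‖ < t := mem_ball_zero_iff.1 hz
        have hz1 : z ∈ ball (0 : ℂ) 1 := mem_ball_zero_iff.2 (hzt.trans ht1)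
        have hzr : z ∈ closedBall (0 : ℂ) r := mem_closedBall_zero_iff.2 (hzt.trans ht.2).le
        have h1 := hK z hz1
        unfold K at h1
        have h2 : |(G z - G 0).im| ≤ C * t :=
          (Complex.abs_im_le_norm _).trans ((hGb z hzr).trans
            (mul_le_mul_of_nonneg_left hzt.le hC0))
        have h3 : (G z - G 0).im * (L z - L 0).im ≤ C * t * ε := by
          calc (G z - G 0).im * (L z - L 0).im ≤ |(G z - G 0).im * (L z - L 0).im| :=
                le_abs_self _
            _ = |(G z - G 0).im| * |(L z - L 0).im| := abs_mul _ _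
            _ ≤ C * t * ε := mul_le_mul h2 hzε (abs_nonneg _) (by positivity)
        have h4 : kap ‖z‖ ≤ kap t := mg_kap_mono (norm_nonneg z) hzt.le ht1
        have h5 : (A * kap ‖z‖) ^ 2 ≤ (A * kap t) ^ 2 := by
          have h6 : 0 ≤ kap ‖z‖ := mg_kap_nonneg (norm_nonneg z) (hzt.trans ht1)
          gcongr
        have h7 : ((F1 z).im) ^ 2 ≤ (A * kap t + Real.sqrt C * Real.sqrt ε * Real.sqrt t) ^ 2 := by
          have h8 : (Real.sqrt C * Real.sqrt ε * Real.sqrt t) ^ 2 = C * t * ε := by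
            rw [mul_pow, mul_pow, Real.sq_sqrt hC0, Real.sq_sqrt hε.le, Real.sq_sqrt ht0.le]
            ring
          have h9 : 0 ≤ A * kap t * (Real.sqrt C * Real.sqrt ε * Real.sqrt t) := by positivity
          show ((F z - F 0).im) ^ 2 ≤ _
          nlinarith
        exact abs_le_of_sq_le_sq h7 hW0)
      (by positivity) (by
        intro z hz
        have hzt : ‖z‖ < t := mem_ball_zero_iff.1 hz
        have hz1 : z ∈ ball (0 : ℂ) 1 := mem_ball_zero_iff.2 (hzt.trans ht1)
        refine le_trans ?_ (hharn z hz1)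
        refine mul_le_mul_of_nonneg_left ?_ hi0.le
        have hn := norm_nonneg z
        rw [div_le_div_iff₀ (by linarith) (by linarith)]
        nlinarith)
    rw [hdL1] at harea
    have hpi := Real.pi_pos
    calc 1 / (2 * π) * ∫ z in ball (0 : ℂ) t, mg_psi ε (L1 z).im * ‖deriv L z‖ ^ 2
        ≤ 1 / (2 * π) * (4 * (A * kap t + Real.sqrt C * Real.sqrt ε * Real.sqrt t) /
          ((R 0).im * ((1 - t) / (1 + t)))) := by
          exact mul_le_mul_of_nonneg_left harea (by positivity)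
      _ = _ := by ring
  -- the comparison
  have hm : ∀ t ∈ Ioo (-1 : ℝ) 1, HasDerivAt (mg_m L1 (mg_phi ε))
      (mean fun x => mg_phi1 ε (L1 (pt t x)).im * (deriv L1 (pt t x) * cexp (x * I)).im) t :=
    fun t ht => mg_m_deriv dL1 (mg_phi_deriv ε) (mg_phi1_cont ε) ht
  have hBd : ∀ t ∈ Ioo (0 : ℝ) r, HasDerivAt
      (fun t => b1 * (t / (1 - t) ^ 2) + b2 * Real.sqrt t)
      (b1 * ((1 + t) / (1 - t) ^ 3) + b2 * (1 / (2 * Real.sqrt t))) t := by
    intro t ht
    have h1t : (1 - t) ≠ 0 := by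
      have : t < 1 := ht.2.trans hr1
      linarith
    have e1 : HasDerivAt (fun t : ℝ => t / (1 - t) ^ 2) ((1 + t) / (1 - t) ^ 3) t := by
      have e0 : HasDerivAt (fun t : ℝ => (1 - t) ^ 2) (-(2 * (1 - t))) t := by
        have := ((hasDerivAt_id' t).const_sub 1).fun_pow 2
        refine this.congr_deriv ?_
        norm_num
      have := (hasDerivAt_id' t).fun_div e0 (pow_ne_zero 2 h1t)
      refine this.congr_deriv ?_
      field_simp
      ring
    have e2 := Real.hasDerivAt_sqrt ht.1.ne'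
    exact (e1.const_mul b1).add (e2.const_mul b2)
  have hanti : AntitoneOn (fun t => mg_m L1 (mg_phi ε) t -
      (b1 * (t / (1 - t) ^ 2) + b2 * Real.sqrt t)) (Icc 0 r) := by
    refine antitoneOn_of_deriv_nonpos (convex_Icc 0 r) ?_ ?_ ?_
    · intro t ht
      have h1 : ContinuousAt (mg_m L1 (mg_phi ε)) t :=
        (hm t ⟨by linarith [ht.1], by linarith [ht.2]⟩).continuousAt
      have h1t : (1 - t) ≠ 0 := by
        have : t < 1 := lt_of_le_of_lt ht.2 hr1
        linarith
      have h2 : ContinuousAt (fun t : ℝ => b1 * (t / (1 - t) ^ 2) + b2 * Real.sqrt t) t := by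
        have h3 : ContinuousAt (fun t : ℝ => t / (1 - t) ^ 2) t :=
          continuousAt_id.div (by fun_prop) (pow_ne_zero 2 h1t)
        exact (continuousAt_const.mul h3).add (continuousAt_const.mul Real.continuous_sqrt.continuousAt)
      exact (h1.sub h2).continuousWithinAt
    · rw [interior_Icc]
      intro t ht
      exact ((hm t ⟨by linarith [ht.1], by linarith [ht.2]⟩).fun_sub
        (hBd t ht)).differentiableAt.differentiableWithinAt
    · rw [interior_Icc]
      intro t ht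
      have ht1 : t < 1 := ht.2.trans hr1
      have h1t : 0 < 1 - t := by linarith
      have ht0 : 0 < t := ht.1
      have hst : 0 < Real.sqrt t := Real.sqrt_pos.2 ht0
      rw [((hm t ⟨by linarith [ht.1], by linarith [ht.2]⟩).fun_sub (hBd t ht)).deriv]
      have h1 := hN t ht
      rw [mg_N_eq] at h1
      set M := (mean fun x => mg_phi1 ε (L1 (pt t x)).im * (deriv L1 (pt t x) * cexp (x * I)).im)
        with hM
      have hpi := Real.pi_pos
      have hk : kap t ≤ t / (1 - t) ^ 2 * (2 / Real.sqrt 3) := mg_kap_le ht0.le ht1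
      -- bound for t * M
      have h2 : t * M ≤ t * (b1 * ((1 + t) / (1 - t) ^ 3) + b2 * (1 / (2 * Real.sqrt t))) := by
        refine h1.trans ?_
        have e1 : (2 / π) * ((A * kap t + Real.sqrt C * Real.sqrt ε * Real.sqrt t) /
            ((R 0).im * ((1 - t) / (1 + t)))) =
            (2 / π) * (‖deriv L 0‖ * kap t * ((1 + t) / (1 - t))) +
            (2 / (π * (R 0).im)) * Real.sqrt C * Real.sqrt ε * Real.sqrt t *
              ((1 + t) / (1 - t)) := by
          rw [hA]
          field_simp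
        have e2 : (2 / π) * (‖deriv L 0‖ * kap t * ((1 + t) / (1 - t))) ≤
            t * (b1 * ((1 + t) / (1 - t) ^ 3)) := by
          calc (2 / π) * (‖deriv L 0‖ * kap t * ((1 + t) / (1 - t)))
              ≤ (2 / π) * (‖deriv L 0‖ * (t / (1 - t) ^ 2 * (2 / Real.sqrt 3)) *
                ((1 + t) / (1 - t))) := by gcongr
            _ = t * (b1 * ((1 + t) / (1 - t) ^ 3)) := by
                rw [hb1]
                field_simp
                ring
        have e3 : (2 / (π * (R 0).im)) * Real.sqrt C * Real.sqrt ε * Real.sqrt t *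
              ((1 + t) / (1 - t)) ≤ t * (b2 * (1 / (2 * Real.sqrt t))) := by
          have e4 : (1 + t) / (1 - t) ≤ (1 + r) / (1 - r) := by
            rw [div_le_div_iff₀ h1t h1r]
            nlinarith [ht.2]
          calc (2 / (π * (R 0).im)) * Real.sqrt C * Real.sqrt ε * Real.sqrt t *
              ((1 + t) / (1 - t))
              ≤ (2 / (π * (R 0).im)) * Real.sqrt C * Real.sqrt ε * Real.sqrt t *
              ((1 + r) / (1 - r)) := by gcongr
            _ = t * (b2 * (1 / (2 * Real.sqrt t))) := by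
                have hsq : t = Real.sqrt t * Real.sqrt t := (Real.mul_self_sqrt ht0.le).symm
                rw [hb2]
                nth_rewrite 2 [hsq]
                field_simp
                ring
        rw [e1, mul_add]
        exact add_le_add e2 e3
      have h3 := le_of_mul_le_mul_left h2 ht0
      linarith
  have hfin := hanti (left_mem_Icc.2 hr0.le) (right_mem_Icc.2 hr0.le) hr0.le
  simp only at hfin
  have hm0 : mg_m L1 (mg_phi ε) 0 = ε := by
    unfold mg_m
    have : (fun x : ℝ => mg_phi ε (L1 (pt 0 x)).im) = fun _ => ε := by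
      funext x
      have : pt 0 x = 0 := by unfold pt; simp
      rw [this]
      simp [hL1, mg_phi_zero]
    rw [this, mean_const]
  rw [hm0, Real.sqrt_zero] at hfin
  have hmr : (mean fun x => |(L (pt r x) - L 0).im|) ≤ mg_m L1 (mg_phi ε) r := by
    have hrm : r ∈ Ioo (-1 : ℝ) 1 := ⟨by linarith, hr1⟩
    have hc1 : Continuous fun x => (L1 (pt r x)).im :=
      sliceR (G := fun t x => (L1 (pt t x)).im) (cim (mg_comp_pt dL1.continuousOn)) hrm
    have hcphi : Continuous (mg_phi ε) :=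
      continuous_iff_continuousAt.2 fun y => (mg_phi_deriv ε y).continuousAt
    unfold mg_m
    exact mean_mono hc1.abs (hcphi.comp hc1) (fun x => mg_phi_ge hε _)
  refine hmr.trans ?_
  have e5 : b2 * Real.sqrt r = 4 * ((1 + r) / (1 - r)) / (π * (R 0).im) * Real.sqrt C *
      Real.sqrt r * Real.sqrt ε := by
    rw [hb2]; ring
  have e6 : (0 : ℝ) / (1 - 0) ^ 2 = 0 := by norm_num
  rw [e6] at hfin
  rw [← e5]
  linarith

theorem mean_growth {L F G R : ℂ → ℂ} (h : AchLift L F G R)
    (hharn : ∀ z ∈ ball (0:ℂ) 1, (R 0).im * ((1 - ‖z‖) / (1 + ‖z‖)) ≤ (R z).im)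
    (hK : ∀ z ∈ ball (0:ℂ) 1, K L F G z 0 ≤ (‖deriv L 0‖ * (R 0).im * kap ‖z‖) ^ 2)
    {r : ℝ} (hr0 : 0 < r) (hr1 : r < 1) :
    ∫ θ in (0:ℝ)..(2 * Real.pi), |(L (circleMap 0 r θ) - L 0).im|
      ≤ ‖deriv L 0‖ * (8 / Real.sqrt 3) * (r / (1 - r) ^ 2) := by
  obtain ⟨k, hk⟩ := mg_eps h hharn hK hr0 hr1
  have hlim : (mean fun x => |(L (pt r x) - L 0).im|) ≤
      4 * ‖deriv L 0‖ / (π * Real.sqrt 3) * (r / (1 - r) ^ 2) := by
    have ht : Tendsto (fun ε : ℝ => ε + 4 * ‖deriv L 0‖ / (π * Real.sqrt 3) * (r / (1 - r) ^ 2) +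
        k * Real.sqrt ε) (𝓝[>] 0)
        (𝓝 (0 + 4 * ‖deriv L 0‖ / (π * Real.sqrt 3) * (r / (1 - r) ^ 2) + k * Real.sqrt 0)) := by
      have hc : Continuous (fun ε : ℝ => ε + 4 * ‖deriv L 0‖ / (π * Real.sqrt 3) *
          (r / (1 - r) ^ 2) + k * Real.sqrt ε) := by fun_prop
      exact (hc.tendsto 0).mono_left nhdsWithin_le_nhds
    have h1 := ge_of_tendsto ht (eventually_nhdsWithin_of_forall fun ε hε => hk ε hε)
    simpa using h1
  have hpt : ∀ x : ℝ, circleMap 0 r x = pt r x := by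
    intro x
    unfold circleMap pt
    simp
  have hper : Function.Periodic (fun x : ℝ => |(L (circleMap 0 r x) - L 0).im|) (2 * π) := by
    intro x
    simp only
    rw [periodic_circleMap]
  have h2 := hper.intervalIntegral_add_eq 0 (-π)
  rw [zero_add, show -π + 2 * π = π by ring] at h2
  rw [h2]
  have h3 : ∫ x in (-π)..π, |(L (circleMap 0 r x) - L 0).im| =
      (2 * π) * mean fun x => |(L (pt r x) - L 0).im| := by
    unfold mean
    have hpi := Real.pi_pos
    simp only [hpt]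
    field_simp
  rw [h3]
  have hpi := Real.pi_pos
  have hs3 : 0 < Real.sqrt 3 := Real.sqrt_pos.2 (by norm_num)
  calc 2 * π * mean (fun x => |(L (pt r x) - L 0).im|)
      ≤ 2 * π * (4 * ‖deriv L 0‖ / (π * Real.sqrt 3) * (r / (1 - r) ^ 2)) := by gcongr
    _ = _ := by
        field_simp
        ring

end AllN24
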