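import Pool.Agent.AllN24.KUpper
import Pool.Agent.AllN24.MeanGrowth

/-! # Coefficient bound from the mean growth of `Im L` -/

namespace AllN24
open Complex Metric MeasureTheory
open scoped ComplexConjugate

theorem cf_circle {f : ℂ → ℂ} (r : ℝ) :
    (∮ z in C(0, r), f z) = ∫ θ in (0:ℝ)..(2 * Real.pi), (circleMap 0 r θ * I) * f (circleMap 0 r θ) := by
  rw [circleIntegral]
  simp only [deriv_circleMap, smul_eq_mul]

/-- coefficients are bounded by the mean of `|Im L|` -/
theorem coeff_le_mean {L : ℂ → ℂ} (dL : DifferentiableOn ℂ L (ball 0 1)) {n : ℕ} (hn : 1 ≤ n)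
    {r : ℝ} (hr0 : 0 < r) (hr1 : r < 1) :
    ‖iteratedDeriv n L 0 / (n.factorial : ℂ)‖ * r ^ n
      ≤ (1 / Real.pi) * ∫ θ in (0:ℝ)..(2 * Real.pi), |(L (circleMap 0 r θ) - L 0).im| := by
  set W : ℝ → ℂ := fun θ => L (circleMap 0 r θ) - L 0 with hW
  have hcb : closedBall (0:ℂ) r ⊆ ball (0:ℂ) 1 := closedBall_subset_ball hr1
  have hsub : DifferentiableOn ℂ (fun z => L z - L 0) (closedBall 0 r) :=
    (dL.mono hcb).sub_const _
  have hcirc : ∀ θ, circleMap 0 r θ ∈ closedBall (0:ℂ) r := fun θ =>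
    circleMap_mem_closedBall _ hr0.le _
  have hWc : Continuous W := by
    have h1 : ContinuousOn (fun z => L z - L 0) (closedBall 0 r) := hsub.continuousOn
    exact h1.comp_continuous (continuous_circleMap 0 r) hcirc
  have hne : ∀ θ, circleMap 0 r θ ≠ 0 := fun θ => circleMap_ne_center hr0.ne'
  -- e θ = circleMap 0 1 θ
  set e : ℝ → ℂ := fun θ => cexp (θ * I) with he
  have hce : ∀ θ : ℝ, circleMap 0 r θ = (r : ℂ) * e θ := by
    intro θ; simp [circleMap, he]
  have hen : ∀ θ : ℝ, ‖e θ‖ = 1 := fun θ => Complex.norm_exp_ofReal_mul_I θ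
  have hec : Continuous e := by
    rw [he]; fun_prop
  have hconj : ∀ θ : ℝ, conj (e θ) = (e θ)⁻¹ := by
    intro θ
    have h1 : e θ * conj (e θ) = 1 := by
      rw [Complex.mul_conj, Complex.normSq_eq_norm_sq, hen]; simp
    exact eq_inv_of_mul_eq_one_right h1
  have hene : ∀ θ : ℝ, e θ ≠ 0 := fun θ => Complex.exp_ne_zero _
  -- Cauchy for derivatives
  have h1 := DifferentiableOn.circleIntegral_one_div_sub_center_pow_smul hr0 n hsub
  rw [cf_circle] at h1
  -- holomorphic moment vanishes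
  have h2 : (∮ z in C(0, r), z ^ (n - 1) * (L z - L 0)) = 0 := by
    have hd : DifferentiableOn ℂ (fun z => z ^ (n - 1) * (L z - L 0)) (closedBall 0 r) :=
      (differentiable_id.pow _).differentiableOn.mul hsub
    exact Complex.circleIntegral_eq_zero_of_differentiable_on_off_countable hr0.le
      Set.countable_empty hd.continuousOn (fun z hz => (hd z (ball_subset_closedBall hz.1)).differentiableAt
        (closedBall_mem_nhds_of_mem hz.1))
  rw [cf_circle] at h2
  -- rewrite integrands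
  have e1 : ∀ θ : ℝ, (circleMap 0 r θ * I) * ((1 / (circleMap 0 r θ - 0) ^ (n + 1)) • (L (circleMap 0 r θ) - L 0))
      = (I / (r : ℂ) ^ n) * ((conj (e θ)) ^ n * W θ) := by
    intro θ
    have hz := hne θ
    have hr' : (r : ℂ) ≠ 0 := by exact_mod_cast hr0.ne'
    have hz' := hene θ
    rw [sub_zero, smul_eq_mul, hconj, inv_pow]
    simp only [hW]
    rw [hce]
    field_simp
    ring
  have e2 : ∀ θ : ℝ, (circleMap 0 r θ * I) * ((circleMap 0 r θ) ^ (n - 1) * (L (circleMap 0 r θ) - L 0))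
      = (I * (r : ℂ) ^ n) * ((e θ) ^ n * W θ) := by
    intro θ
    obtain ⟨m, rfl⟩ : ∃ m, n = m + 1 := ⟨n - 1, by omega⟩
    simp only [hW]
    rw [hce]
    simp only [Nat.add_sub_cancel]
    ring
  simp_rw [e1] at h1
  simp_rw [e2] at h2
  rw [intervalIntegral.integral_const_mul] at h1 h2
  have hr' : (r : ℂ) ≠ 0 := by exact_mod_cast hr0.ne'
  have h3 : (∫ θ in (0:ℝ)..(2 * Real.pi), (e θ) ^ n * W θ) = 0 := by
    rcases mul_eq_zero.1 h2 with h | h
    · exfalso
      exact (mul_ne_zero Complex.I_ne_zero (pow_ne_zero n hr')) h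
    · exact h
  have h4 : (∫ θ in (0:ℝ)..(2 * Real.pi), (conj (e θ)) ^ n * conj (W θ)) = 0 := by
    have : (∫ θ in (0:ℝ)..(2 * Real.pi), (conj (e θ)) ^ n * conj (W θ))
        = conj (∫ θ in (0:ℝ)..(2 * Real.pi), (e θ) ^ n * W θ) := by
      rw [intervalIntegral.integral_of_le Real.two_pi_pos.le,
        intervalIntegral.integral_of_le Real.two_pi_pos.le, ← integral_conj]
      congr 1
      ext θ
      simp
    rw [this, h3, map_zero]
  -- difference
  have hi1 : IntervalIntegrable (fun θ => (conj (e θ)) ^ n * W θ) volume 0 (2 * Real.pi) :=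
    (((Complex.continuous_conj.comp hec).pow n).mul hWc).intervalIntegrable _ _
  have hi2 : IntervalIntegrable (fun θ => (conj (e θ)) ^ n * conj (W θ)) volume 0 (2 * Real.pi) :=
    (((Complex.continuous_conj.comp hec).pow n).mul (Complex.continuous_conj.comp hWc)).intervalIntegrable _ _
  have h5 : (∫ θ in (0:ℝ)..(2 * Real.pi), (conj (e θ)) ^ n * W θ)
      = ∫ θ in (0:ℝ)..(2 * Real.pi), (conj (e θ)) ^ n * (2 * I * ((W θ).im : ℂ)) := by
    have : (∫ θ in (0:ℝ)..(2 * Real.pi), (conj (e θ)) ^ n * W θ)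
        = (∫ θ in (0:ℝ)..(2 * Real.pi), (conj (e θ)) ^ n * W θ)
          - ∫ θ in (0:ℝ)..(2 * Real.pi), (conj (e θ)) ^ n * conj (W θ) := by rw [h4, sub_zero]
    rw [this, ← intervalIntegral.integral_sub hi1 hi2]
    congr 1
    ext θ
    rw [← mul_sub, Complex.sub_conj]
    push_cast
    ring
  have h6 : ‖∫ θ in (0:ℝ)..(2 * Real.pi), (conj (e θ)) ^ n * (2 * I * ((W θ).im : ℂ))‖
      ≤ ∫ θ in (0:ℝ)..(2 * Real.pi), 2 * |(W θ).im| := by
    refine (intervalIntegral.norm_integral_le_integral_norm Real.two_pi_pos.le).trans (le_of_eq ?_)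
    congr 1
    ext θ
    rw [norm_mul, norm_pow, Complex.norm_conj, hen, one_pow, one_mul, norm_mul, norm_mul,
      Complex.norm_I, Complex.norm_real, Real.norm_eq_abs]
    simp
  rw [← h5, intervalIntegral.integral_const_mul] at h6
  -- norm of the Cauchy formula
  have h7 := congrArg (fun z => ‖z‖) h1
  simp only [norm_mul, norm_div, norm_pow, Complex.norm_I, Complex.norm_real, Real.norm_eq_abs,
    smul_eq_mul, abs_of_pos hr0] at h7
  have hiter : iteratedDeriv n (fun z => L z - L 0) 0 = iteratedDeriv n L 0 := by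
    obtain ⟨m, rfl⟩ : ∃ m, n = m + 1 := ⟨n - 1, by omega⟩
    rw [iteratedDeriv_succ', iteratedDeriv_succ']
    congr 1
    ext z
    exact deriv_sub_const _
  rw [hiter] at h7
  have hfac : ‖(n.factorial : ℂ)‖ = (n.factorial : ℝ) := Complex.norm_natCast _
  have hpi : ‖(Real.pi : ℂ)‖ = Real.pi := by
    rw [Complex.norm_real, Real.norm_eq_abs, abs_of_pos Real.pi_pos]
  rw [norm_div, hfac]
  have hrn : 0 < r ^ n := pow_pos hr0 n
  have hfp : (0:ℝ) < n.factorial := by exact_mod_cast n.factorial_pos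
  have h8 : ‖iteratedDeriv n L 0‖ / (n.factorial : ℝ) * r ^ n
      = (1 / (2 * Real.pi)) * ‖∫ θ in (0:ℝ)..(2 * Real.pi), (conj (e θ)) ^ n * W θ‖ := by
    have h9 : 1 / r ^ n * ‖∫ θ in (0:ℝ)..(2 * Real.pi), (conj (e θ)) ^ n * W θ‖
        = 2 * Real.pi / (n.factorial : ℝ) * ‖iteratedDeriv n L 0‖ := by
      have h10 := h7
      simp only [Complex.norm_ofNat, abs_of_pos Real.pi_pos, Complex.norm_natCast, mul_one] at h10
      exact h10
    field_simp at h9 ⊢
    linarith
  rw [h8]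
  have h9 := mul_le_mul_of_nonneg_left h6 (by positivity : (0:ℝ) ≤ 1 / (2 * Real.pi))
  refine h9.trans (le_of_eq ?_)
  simp only [hW]
  field_simp

/-- (N4) coefficients -/
theorem coeff_bound {L F G R : ℂ → ℂ} (h : AchLift L F G R)
    (hrad : ∀ z ∈ ball (0:ℂ) 1, (1 - ‖z‖ ^ 2) * (‖deriv L z‖ * (R z).im)
      ≤ ‖deriv L 0‖ * (R 0).im * ((1 + ‖z‖) / (1 - ‖z‖)) ^ 2) {n : ℕ} (hn : 1 ≤ n)
    {r : ℝ} (hr0 : 0 < r) (hr1 : r < 1) :
    ‖iteratedDeriv n L 0 / (n.factorial : ℂ)‖ * r ^ n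
      ≤ ‖deriv L 0‖ * (8 / (Real.sqrt 3 * Real.pi)) * (r / (1 - r) ^ 2) := by
  have h1 := coeff_le_mean h.dL hn hr0 hr1
  have h2 := mean_growth h (fun z hz => harnack_half h.dR h.hR hz)
    (fun z hz => K_upper h hrad hz) hr0 hr1
  refine h1.trans ((mul_le_mul_of_nonneg_left h2 (by positivity)).trans (le_of_eq ?_))
  have h3 : 0 < Real.sqrt 3 := Real.sqrt_pos.2 (by norm_num)
  field_simp

end AllN24
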