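import Pool.Agent.AllN24.Coeff
import Pool.Agent.CSH.A2
import Pool.Agent.CSH.FinN

/-!
# Quadratic growth of the coefficients of univalent harmonic maps: assembly

`LiftAll` is the lift theorem: every univalent sense-preserving harmonic polynomial map
`h + conj g` near the closed disc has, for each order `m`, a strictly achronal lift whose first
component has the same Taylor coefficients as `h - g` up to order `m`.  From it the bound
`|a_n|, |b_n| ≤ (2 e ^ 2 / (√3 π)) (n + 1) ^ 2` follows for all `f = h + conj g` in `S_H`.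
-/

set_option autoImplicit false

open Complex Metric Set
open scoped ComplexConjugate Nat

namespace AllN24

/-- the lift theorem (hypothesis of this file) -/
def LiftAll : Prop :=
  ∀ (h g : Polynomial ℂ) (r : ℝ), Pool.CSH.Uni h g r → ∀ m : ℕ,
    ∃ L F G R : ℂ → ℂ, AchLift L F G R ∧
      ∀ k : ℕ, 1 ≤ k → k ≤ m → iteratedDeriv k L 0 / (k ! : ℂ) = (h - g).coeff k

theorem AchLift.surf {L F G R : ℂ → ℂ} (h : AchLift L F G R) :
    Pool.CSH.Surf (ball 0 1) L F G R :=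
  ⟨h.dL, h.dF, h.dG, h.dR, h.hF, h.hG, h.hR, h.hL⟩

theorem AchLift.achr {L F G R : ℂ → ℂ} (h : AchLift L F G R) :
    Pool.CSH.Achr (ball 0 1) L F G :=
  fun x hx y hy hxy => h.hK x hx y hy hxy

theorem AchLift.coeff_bound' {L F G R : ℂ → ℂ} (h : AchLift L F G R) {n : ℕ} (hn : 1 ≤ n)
    {r : ℝ} (hr0 : 0 < r) (hr1 : r < 1) :
    ‖iteratedDeriv n L 0 / (n ! : ℂ)‖ * r ^ n
      ≤ ‖deriv L 0‖ * (8 / (Real.sqrt 3 * Real.pi)) * (r / (1 - r) ^ 2) := by
  refine coeff_bound h ?_ hn hr0 hr1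
  intro z hz
  have := Pool.CSH.radial_achr h.surf h.achr z hz
  rw [← mul_assoc]
  exact this

/-- the constant -/
noncomputable def cst : ℝ := 2 * Real.exp 2 / (Real.sqrt 3 * Real.pi)

theorem cst_pos : 0 < cst := by unfold cst; positivity

theorem AchLift.coeff_quad {L F G R : ℂ → ℂ} (h : AchLift L F G R) {n : ℕ} (hn : 2 ≤ n) :
    ‖iteratedDeriv n L 0 / (n ! : ℂ)‖ ≤ cst * ((n : ℝ) + 1) ^ 2 * ‖deriv L 0‖ := by
  obtain ⟨m, rfl⟩ : ∃ m : ℕ, n = m + 1 := ⟨n - 1, by omega⟩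
  have hm : (1 : ℝ) ≤ m := by exact_mod_cast (by omega : 1 ≤ m)
  set r : ℝ := m / (m + 2) with hr
  have hr0 : 0 < r := by rw [hr]; positivity
  have hr1 : r < 1 := by rw [hr, div_lt_one (by positivity)]; linarith
  have h1 := h.coeff_bound' (n := m + 1) (by omega) hr0 hr1
  have h2 : 1 - r = 2 / (m + 2) := by rw [hr]; field_simp; ring
  have h3 : r / (1 - r) ^ 2 = r * ((m : ℝ) + 2) ^ 2 / 4 := by
    rw [h2]; field_simp; ring
  -- `exp (-2) ≤ r ^ m`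
  have h4 : Real.exp (-2) ≤ r ^ m := by
    have h5 : Real.exp (-(2 / m)) ≤ r := by
      have h6 : (2 : ℝ) / m + 1 ≤ Real.exp (2 / m) := Real.add_one_le_exp _
      rw [Real.exp_neg]
      have h7 : r⁻¹ = 2 / m + 1 := by
        rw [hr, inv_div]; field_simp; ring
      rw [← inv_inv r, h7]
      exact inv_anti₀ (by positivity) h6
    calc Real.exp (-2) = Real.exp (-(2 / m)) ^ m := by
          rw [← Real.exp_nat_mul]
          congr 1
          field_simp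
      _ ≤ r ^ m := pow_le_pow_left₀ (Real.exp_pos _).le h5 m
  rw [h3] at h1
  have h8 : ‖iteratedDeriv (m + 1) L 0 / ((m + 1)! : ℂ)‖ * r ^ m
      ≤ ‖deriv L 0‖ * (8 / (Real.sqrt 3 * Real.pi)) * (((m : ℝ) + 2) ^ 2 / 4) := by
    have h9 : ‖iteratedDeriv (m + 1) L 0 / ((m + 1)! : ℂ)‖ * r ^ m * r
        ≤ ‖deriv L 0‖ * (8 / (Real.sqrt 3 * Real.pi)) * (((m : ℝ) + 2) ^ 2 / 4) * r := by
      calc _ = ‖iteratedDeriv (m + 1) L 0 / ((m + 1)! : ℂ)‖ * r ^ (m + 1) := by rw [pow_succ]; ring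
        _ ≤ _ := h1
        _ = _ := by ring
    exact le_of_mul_le_mul_right h9 hr0
  have h10 : ‖iteratedDeriv (m + 1) L 0 / ((m + 1)! : ℂ)‖ * Real.exp (-2)
      ≤ ‖deriv L 0‖ * (8 / (Real.sqrt 3 * Real.pi)) * (((m : ℝ) + 2) ^ 2 / 4) :=
    (mul_le_mul_of_nonneg_left h4 (norm_nonneg _)).trans h8
  have h11 : Real.exp (-2) * Real.exp 2 = 1 := by rw [← Real.exp_add]; norm_num
  calc ‖iteratedDeriv (m + 1) L 0 / ((m + 1)! : ℂ)‖
      = ‖iteratedDeriv (m + 1) L 0 / ((m + 1)! : ℂ)‖ * Real.exp (-2) * Real.exp 2 := by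
        rw [mul_assoc, h11, mul_one]
    _ ≤ ‖deriv L 0‖ * (8 / (Real.sqrt 3 * Real.pi)) * (((m : ℝ) + 2) ^ 2 / 4) * Real.exp 2 :=
        mul_le_mul_of_nonneg_right h10 (Real.exp_pos _).le
    _ = cst * (((m + 1 : ℕ) : ℝ) + 1) ^ 2 * ‖deriv L 0‖ := by
        unfold cst
        push_cast
        ring

theorem polyBound (H : LiftAll) {n : ℕ} (hn : 2 ≤ n) :
    Pool.Agent.CSH.PolyBoundN n (cst * ((n : ℝ) + 1) ^ 2) := by
  intro R p q hR _ _ hlt hinj
  obtain ⟨L, F, G, R', hA, hc⟩ := H p q R ⟨hR, hinj, hlt⟩ n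
  have h1 := hA.coeff_quad hn
  rw [hc n (by omega) le_rfl] at h1
  have h2 : deriv L 0 = (p - q).coeff 1 := by
    have := hc 1 le_rfl (by omega)
    rw [iteratedDeriv_one] at this
    simpa using this
  rw [h2, Polynomial.coeff_sub, Polynomial.coeff_sub] at h1
  exact h1

/-- **Quadratic growth** of the coefficients in `S_H`, from the lift theorem. -/
theorem quadratic_growth (H : LiftAll) {n : ℕ} (hn : 2 ≤ n) (h g : ℂ → ℂ)
    (dh : DifferentiableOn ℂ h (ball (0 : ℂ) 1)) (dg : DifferentiableOn ℂ g (ball (0 : ℂ) 1))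
    (h1 : deriv h 0 = 1) (hlt : ∀ z ∈ ball (0 : ℂ) 1, ‖deriv g z‖ < ‖deriv h z‖)
    (hinj : InjOn (fun z => h z + conj (g z)) (ball (0 : ℂ) 1)) :
    ‖iteratedDeriv n h 0‖ / (n ! : ℝ) ≤ cst * ((n : ℝ) + 1) ^ 2 ∧
    ‖iteratedDeriv n g 0‖ / (n ! : ℝ) ≤ cst * ((n : ℝ) + 1) ^ 2 ∧
    ∀ ε : ℂ, ‖ε‖ = 1 → ‖iteratedDeriv n h 0 + ε * iteratedDeriv n g 0‖ / (n ! : ℝ)
      ≤ cst * ((n : ℝ) + 1) ^ 2 * ‖1 + ε * deriv g 0‖ :=
  Pool.Agent.CSH.final_of_polyBoundN (by omega) (polyBound H hn) h g dh dg h1 hlt hinj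

end AllN24
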