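import Mathlib

/-!
# The Hardy-Stein identity for `φ(Im L)` on circles

`L` holomorphic on the unit disc, `φ ∈ C²(ℝ)`, `Y = Im L`.  Then
`m(t) = ∫_{-π}^{π} φ(Y(t e^{iθ})) dθ` satisfies `t m'(t) = ∫_{|z|<t} φ''(Y) |L'|² dA`.
-/

open MeasureTheory Set Metric

set_option autoImplicit false

namespace Pool.Agent.AllN24

variable {L : ℂ → ℂ} {f f1 f2 : ℝ → ℝ}

/-- the direction `e^{iθ}` -/
noncomputable def ee (θ : ℝ) : ℂ := Complex.exp (θ * Complex.I)

theorem norm_ee (θ : ℝ) : ‖ee θ‖ = 1 := Complex.norm_exp_ofReal_mul_I θ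

theorem ee_cont : Continuous ee := by unfold ee; fun_prop

theorem ee_ne (θ : ℝ) : ee θ ≠ 0 := Complex.exp_ne_zero _

theorem norm_tee (t θ : ℝ) : ‖(t : ℂ) * ee θ‖ = |t| := by
  rw [norm_mul, norm_ee, mul_one, Complex.norm_real, Real.norm_eq_abs]

theorem circleMap_ee (t θ : ℝ) : circleMap 0 t θ = (t : ℂ) * ee θ := by
  simp [circleMap, ee]

theorem hasDerivAt_ee (θ : ℝ) : HasDerivAt ee (ee θ * Complex.I) θ := by
  have h : HasDerivAt (fun x : ℝ => (x : ℂ) * Complex.I) Complex.I θ := by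
    simpa using (Complex.ofRealCLM.hasDerivAt (x := θ)).mul_const Complex.I
  exact h.cexp

/-- derivative in `t` of `G(t e^{iθ})` -/
theorem hasDerivAt_t {G : ℂ → ℂ} {G' : ℂ} {t θ : ℝ}
    (h : HasDerivAt G G' ((t : ℂ) * ee θ)) :
    HasDerivAt (fun s : ℝ => G ((s : ℂ) * ee θ)) (G' * ee θ) t := by
  have h2 : HasDerivAt (fun s : ℝ => (s : ℂ) * ee θ) (ee θ) t := by
    simpa using (Complex.ofRealCLM.hasDerivAt (x := t)).mul_const (ee θ)
  exact h.comp t h2

/-- derivative in `θ` of `G(t e^{iθ})` -/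
theorem hasDerivAt_th {G : ℂ → ℂ} {G' : ℂ} {t θ : ℝ}
    (h : HasDerivAt G G' ((t : ℂ) * ee θ)) :
    HasDerivAt (fun s : ℝ => G ((t : ℂ) * ee s)) (G' * ((t : ℂ) * (ee θ * Complex.I))) θ := by
  exact h.comp θ ((hasDerivAt_ee θ).const_mul (t : ℂ))

theorem hasDerivAt_im {G : ℝ → ℂ} {G' : ℂ} {t : ℝ} (h : HasDerivAt G G' t) :
    HasDerivAt (fun s => (G s).im) G'.im t :=
  Complex.imCLM.hasFDerivAt.comp_hasDerivAt t h

theorem hasDerivAt_re {G : ℝ → ℂ} {G' : ℂ} {t : ℝ} (h : HasDerivAt G G' t) :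
    HasDerivAt (fun s => (G s).re) G'.re t :=
  Complex.reCLM.hasFDerivAt.comp_hasDerivAt t h

theorem mem_b {t θ : ℝ} (ht : |t| < 1) : (t : ℂ) * ee θ ∈ ball (0 : ℂ) 1 := by
  rw [mem_ball_zero_iff, norm_tee]; exact ht

section
variable (hL : DifferentiableOn ℂ L (ball 0 1))
include hL

theorem dA {z : ℂ} (hz : z ∈ ball (0 : ℂ) 1) : HasDerivAt L (deriv L z) z :=
  (hL.differentiableAt (isOpen_ball.mem_nhds hz)).hasDerivAt

theorem dB {z : ℂ} (hz : z ∈ ball (0 : ℂ) 1) : HasDerivAt (deriv L) (deriv (deriv L) z) z :=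
  ((hL.deriv isOpen_ball).differentiableAt (isOpen_ball.mem_nhds hz)).hasDerivAt

theorem cA : ContinuousOn L (ball 0 1) := hL.continuousOn
theorem cB : ContinuousOn (deriv L) (ball 0 1) := (hL.deriv isOpen_ball).continuousOn
theorem cC : ContinuousOn (deriv (deriv L)) (ball 0 1) :=
  ((hL.deriv isOpen_ball).deriv isOpen_ball).continuousOn

end

/-- continuity of a disc function in polar coordinates -/
theorem cont_pol {E : Type*} [TopologicalSpace E] {G : ℂ → E} (hG : ContinuousOn G (ball 0 1)) :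
    ContinuousOn (fun p : ℝ × ℝ => G ((p.1 : ℂ) * ee p.2)) (Ioo (-1) 1 ×ˢ univ) := by
  refine hG.comp ?_ ?_
  · have := ee_cont; fun_prop
  · rintro ⟨t, θ⟩ ht
    exact mem_b (abs_lt.2 ht.1)

/-- the integrand of the radial derivative -/
noncomputable def gg (L : ℂ → ℂ) (f1 : ℝ → ℝ) (t θ : ℝ) : ℝ :=
  f1 (L ((t : ℂ) * ee θ)).im * (deriv L ((t : ℂ) * ee θ) * ee θ).im

/-- the integrand of `(r m')'` -/
noncomputable def kk (L : ℂ → ℂ) (f1 f2 : ℝ → ℝ) (t θ : ℝ) : ℝ :=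
  f2 (L ((t : ℂ) * ee θ)).im * (deriv L ((t : ℂ) * ee θ) * ee θ).im
      * (t * (deriv L ((t : ℂ) * ee θ) * ee θ).im)
    + f1 (L ((t : ℂ) * ee θ)).im *
      ((deriv L ((t : ℂ) * ee θ) * ee θ).im
        + t * (deriv (deriv L) ((t : ℂ) * ee θ) * ee θ * ee θ).im)

theorem d_f (hL : DifferentiableOn ℂ L (ball 0 1)) (h1 : ∀ y, HasDerivAt f (f1 y) y)
    {t θ : ℝ} (ht : |t| < 1) :
    HasDerivAt (fun s : ℝ => f (L ((s : ℂ) * ee θ)).im) (gg L f1 t θ) t := by
  have h := hasDerivAt_im (hasDerivAt_t (dA hL (mem_b (θ := θ) ht)))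
  exact (h1 _).comp t h

theorem d_g (hL : DifferentiableOn ℂ L (ball 0 1)) (h2 : ∀ y, HasDerivAt f1 (f2 y) y)
    {t θ : ℝ} (ht : |t| < 1) :
    HasDerivAt (fun s : ℝ => s * gg L f1 s θ) (kk L f1 f2 t θ) t := by
  have h := hasDerivAt_im (hasDerivAt_t (dA hL (mem_b (θ := θ) ht)))
  have ha := (h2 _).comp t h
  have hb := hasDerivAt_im ((hasDerivAt_t (dB hL (mem_b (θ := θ) ht))).mul_const (ee θ))
  have hc := (hasDerivAt_id t).mul (ha.mul hb)
  refine hc.congr_deriv ?_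
  simp only [kk, Function.comp_apply, id, Pi.mul_apply]
  ring

/-- the tangential derivative -/
theorem d_th (hL : DifferentiableOn ℂ L (ball 0 1)) (h2 : ∀ y, HasDerivAt f1 (f2 y) y)
    {t θ : ℝ} (ht : |t| < 1) :
    HasDerivAt (fun s : ℝ => f1 (L ((t : ℂ) * ee s)).im * (deriv L ((t : ℂ) * ee s) * ee s).re)
      (t * (f2 (L ((t : ℂ) * ee θ)).im * ‖deriv L ((t : ℂ) * ee θ)‖ ^ 2) - kk L f1 f2 t θ) θ := by
  have h := hasDerivAt_im (hasDerivAt_th (dA hL (mem_b (θ := θ) ht)))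
  have ha := (h2 _).comp θ h
  have hb := hasDerivAt_re ((hasDerivAt_th (dB hL (mem_b (θ := θ) ht))).mul (hasDerivAt_ee θ))
  refine (ha.mul hb).congr_deriv ?_
  have hn : ‖deriv L ((t : ℂ) * ee θ)‖ ^ 2 = (deriv L ((t : ℂ) * ee θ) * ee θ).re ^ 2
      + (deriv L ((t : ℂ) * ee θ) * ee θ).im ^ 2 := by
    have : ‖deriv L ((t : ℂ) * ee θ)‖ ^ 2 = ‖deriv L ((t : ℂ) * ee θ) * ee θ‖ ^ 2 := by
      rw [norm_mul, norm_ee, mul_one]
    rw [this, Complex.sq_norm, Complex.normSq_apply]; ring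
  rw [hn]
  simp only [kk, Function.comp_apply, Pi.mul_apply]
  set D := deriv L ((t : ℂ) * ee θ)
  set D2 := deriv (deriv L) ((t : ℂ) * ee θ)
  set e := ee θ
  simp only [Complex.mul_re, Complex.mul_im, Complex.add_re, Complex.ofReal_re, Complex.ofReal_im,
    Complex.I_re, Complex.I_im]
  ring

theorem cont_gg (hL : DifferentiableOn ℂ L (ball 0 1)) (h1 : Continuous f1) :
    ContinuousOn (fun p : ℝ × ℝ => gg L f1 p.1 p.2) (Ioo (-1) 1 ×ˢ univ) := by
  unfold gg
  have ha := cont_pol (cA hL)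
  have hb := cont_pol (cB hL)
  have he : Continuous (fun p : ℝ × ℝ => ee p.2) := ee_cont.comp continuous_snd
  refine ContinuousOn.mul ?_ ?_
  · exact h1.comp_continuousOn (Complex.continuous_im.comp_continuousOn ha)
  · exact Complex.continuous_im.comp_continuousOn (hb.mul he.continuousOn)

theorem cont_kk (hL : DifferentiableOn ℂ L (ball 0 1)) (h1 : Continuous f1) (h2 : Continuous f2) :
    ContinuousOn (fun p : ℝ × ℝ => kk L f1 f2 p.1 p.2) (Ioo (-1) 1 ×ˢ univ) := by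
  unfold kk
  have ha := cont_pol (cA hL)
  have hb := cont_pol (cB hL)
  have hc := cont_pol (cC hL)
  have he : Continuous (fun p : ℝ × ℝ => ee p.2) := ee_cont.comp continuous_snd
  have ht : Continuous (fun p : ℝ × ℝ => p.1) := continuous_fst
  have hd := Complex.continuous_im.comp_continuousOn (hb.mul he.continuousOn)
  have hf := Complex.continuous_im.comp_continuousOn
    ((hc.mul he.continuousOn).mul he.continuousOn)
  have h1' := h1.comp_continuousOn (Complex.continuous_im.comp_continuousOn ha)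
  have h2' := h2.comp_continuousOn (Complex.continuous_im.comp_continuousOn ha)
  exact ((h2'.mul hd).mul (ht.continuousOn.mul hd)).add
    (h1'.mul (hd.add (ht.continuousOn.mul hf)))

/-- the density `φ''(Y)|L'|²` -/
noncomputable def dens (L : ℂ → ℂ) (f2 : ℝ → ℝ) (z : ℂ) : ℝ :=
  f2 (L z).im * ‖deriv L z‖ ^ 2

theorem cont_dens (hL : DifferentiableOn ℂ L (ball 0 1)) (h2 : Continuous f2) :
    ContinuousOn (dens L f2) (ball 0 1) := by
  unfold dens
  exact (h2.comp_continuousOn (Complex.continuous_im.comp_continuousOn (cA hL))).mul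
    ((cB hL).norm.pow 2)

/-- Fubini for a function continuous on the disc in polar coordinates -/
theorem swap_pol {F : ℝ × ℝ → ℝ} (hF : ContinuousOn F (Ioo (-1) 1 ×ˢ univ)) {r : ℝ}
    (hr0 : 0 ≤ r) (hr1 : r < 1) (a b : ℝ) :
    ∫ θ in a..b, ∫ t in (0 : ℝ)..r, F (t, θ) = ∫ t in (0 : ℝ)..r, ∫ θ in a..b, F (t, θ) := by
  symm
  refine intervalIntegral_intervalIntegral_swap (F := fun t θ => F (t, θ)) ?_
  have hK : IsCompact (Icc (0 : ℝ) r ×ˢ uIcc a b) := isCompact_Icc.prod isCompact_uIcc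
  have h : IntegrableOn F (Icc (0 : ℝ) r ×ˢ uIcc a b) (volume.prod volume) :=
    (hF.mono (by
      rintro ⟨t, θ⟩ ⟨h1, -⟩
      exact ⟨⟨by linarith [h1.1], by linarith [h1.2]⟩, mem_univ _⟩)).integrableOn_compact hK
  refine h.mono_set ?_
  refine prod_mono ?_ uIoc_subset_uIcc
  rw [uIoc_of_le hr0]; exact Ioc_subset_Icc_self

/-- slice continuity in `t` -/
theorem slice_t {F : ℝ × ℝ → ℝ} (hF : ContinuousOn F (Ioo (-1) 1 ×ˢ univ)) {r : ℝ}
    (hr0 : 0 ≤ r) (hr1 : r < 1) (θ : ℝ) : ContinuousOn (fun t => F (t, θ)) (uIcc 0 r) := by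
  rw [uIcc_of_le hr0]
  refine hF.comp (by fun_prop) ?_
  intro t ht
  exact ⟨⟨by linarith [ht.1], by linarith [ht.2]⟩, mem_univ _⟩

theorem slice_th {F : ℝ × ℝ → ℝ} (hF : ContinuousOn F (Ioo (-1) 1 ×ˢ univ)) {t : ℝ}
    (ht : |t| < 1) : Continuous (fun θ => F (t, θ)) := by
  refine hF.comp_continuous (by fun_prop) ?_
  intro θ
  exact ⟨abs_lt.1 ht, mem_univ _⟩

/-- step 1: `m(r) - m(0) = ∫_0^r ∫ gg` -/
theorem step1 (hL : DifferentiableOn ℂ L (ball 0 1)) (h1 : ∀ y, HasDerivAt f (f1 y) y)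
    (hc1 : Continuous f1) {r : ℝ} (hr0 : 0 ≤ r) (hr1 : r < 1) :
    (∫ θ in -Real.pi..Real.pi, f (L ((r : ℂ) * ee θ)).im) - 2 * Real.pi * f (L 0).im
      = ∫ t in (0 : ℝ)..r, ∫ θ in -Real.pi..Real.pi, gg L f1 t θ := by
  have hcf : Continuous f := continuous_iff_continuousAt.2 fun y => (h1 y).continuousAt
  have hG := cont_gg hL hc1
  rw [← swap_pol hG hr0 hr1]
  have hpt : ∀ θ : ℝ, ∫ t in (0 : ℝ)..r, gg L f1 t θ
      = f (L ((r : ℂ) * ee θ)).im - f (L 0).im := by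
    intro θ
    rw [intervalIntegral.integral_eq_sub_of_hasDerivAt (f := fun s : ℝ => f (L ((s : ℂ) * ee θ)).im)]
    · simp
    · intro t ht
      rw [uIcc_of_le hr0] at ht
      exact d_f hL h1 (abs_lt.2 ⟨by linarith [ht.1], by linarith [ht.2]⟩)
    · exact (slice_t hG hr0 hr1 θ).intervalIntegrable
  simp_rw [hpt]
  rw [intervalIntegral.integral_sub]
  · rw [intervalIntegral.integral_const]
    simp only [smul_eq_mul]
    ring
  · have h3 : ContinuousOn (fun p : ℝ × ℝ => f (L ((p.1 : ℂ) * ee p.2)).im)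
        (Ioo (-1) 1 ×ˢ univ) :=
      hcf.comp_continuousOn (Complex.continuous_im.comp_continuousOn (cont_pol (cA hL)))
    exact (slice_th h3 (abs_lt.2 ⟨by linarith, hr1⟩)).intervalIntegrable _ _
  · exact intervalIntegrable_const

/-- step 2: `t m'(t) = ∫_0^t ∫ kk` -/
theorem step2 (hL : DifferentiableOn ℂ L (ball 0 1)) (h2 : ∀ y, HasDerivAt f1 (f2 y) y)
    (hc1 : Continuous f1) (hc2 : Continuous f2) {r : ℝ} (hr0 : 0 ≤ r) (hr1 : r < 1) :
    r * (∫ θ in -Real.pi..Real.pi, gg L f1 r θ)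
      = ∫ t in (0 : ℝ)..r, t * ∫ θ in -Real.pi..Real.pi, dens L f2 ((t : ℂ) * ee θ) := by
  have hK := cont_kk hL hc1 hc2
  have e1 : r * (∫ θ in -Real.pi..Real.pi, gg L f1 r θ)
      = ∫ θ in -Real.pi..Real.pi, ∫ t in (0 : ℝ)..r, kk L f1 f2 t θ := by
    rw [← intervalIntegral.integral_const_mul]
    congr 1
    funext θ
    rw [intervalIntegral.integral_eq_sub_of_hasDerivAt (f := fun s : ℝ => s * gg L f1 s θ)]
    · simp
    · intro t ht
      rw [uIcc_of_le hr0] at ht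
      exact d_g hL h2 (abs_lt.2 ⟨by linarith [ht.1], by linarith [ht.2]⟩)
    · exact (slice_t hK hr0 hr1 θ).intervalIntegrable
  rw [e1, swap_pol hK hr0 hr1]
  refine intervalIntegral.integral_congr fun t ht => ?_
  rw [uIcc_of_le hr0] at ht
  have ht' : |t| < 1 := abs_lt.2 ⟨by linarith [ht.1], by linarith [ht.2]⟩
  have hD : ContinuousOn (fun p : ℝ × ℝ => dens L f2 ((p.1 : ℂ) * ee p.2)) (Ioo (-1) 1 ×ˢ univ) :=
    cont_pol (cont_dens hL hc2)
  have hDt := slice_th hD ht'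
  have hKt := slice_th hK ht'
  have h0 : ∫ θ in -Real.pi..Real.pi, (t * dens L f2 ((t : ℂ) * ee θ) - kk L f1 f2 t θ) = 0 := by
    rw [intervalIntegral.integral_eq_sub_of_hasDerivAt
      (f := fun s : ℝ => f1 (L ((t : ℂ) * ee s)).im * (deriv L ((t : ℂ) * ee s) * ee s).re)]
    · have : ee Real.pi = ee (-Real.pi) := by
        simp [ee, Complex.exp_neg, Complex.exp_pi_mul_I]
      rw [this]; ring
    · intro θ _
      exact d_th hL h2 ht'
    · exact ((continuous_const.mul hDt).sub hKt).intervalIntegrable _ _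
  have hA : IntervalIntegrable (fun θ : ℝ => t * dens L f2 ((t : ℂ) * ee θ)) volume
      (-Real.pi) Real.pi := (continuous_const.mul hDt).intervalIntegrable _ _
  have hB : IntervalIntegrable (fun θ : ℝ => kk L f1 f2 t θ) volume
      (-Real.pi) Real.pi := hKt.intervalIntegrable _ _
  rw [intervalIntegral.integral_sub hA hB, intervalIntegral.integral_const_mul] at h0
  simp only
  linarith

/-- polar coordinates for the integral over a disc -/
theorem polar_ball {G : ℂ → ℝ} (hG : ContinuousOn G (ball 0 1)) {r : ℝ}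
    (hr0 : 0 ≤ r) (hr1 : r < 1) :
    ∫ z in ball (0 : ℂ) r, G z
      = ∫ t in (0 : ℝ)..r, t * ∫ θ in -Real.pi..Real.pi, G ((t : ℂ) * ee θ) := by
  have hP : ContinuousOn (fun p : ℝ × ℝ => p.1 * G ((p.1 : ℂ) * ee p.2)) (Ioo (-1) 1 ×ˢ univ) :=
    continuous_fst.continuousOn.mul (cont_pol hG)
  have hcomp : IsCompact (Icc (0 : ℝ) r ×ˢ Icc (-Real.pi) Real.pi) :=
    isCompact_Icc.prod isCompact_Icc
  have hint : IntegrableOn (fun p : ℝ × ℝ => p.1 * G ((p.1 : ℂ) * ee p.2))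
      (Ioo (0 : ℝ) r ×ˢ Ioo (-Real.pi) Real.pi) (volume.prod volume) := by
    refine ((hP.mono ?_).integrableOn_compact hcomp).mono_set
      (prod_mono Ioo_subset_Icc_self Ioo_subset_Icc_self)
    rintro ⟨t, θ⟩ ⟨h1, -⟩
    exact ⟨⟨by linarith [h1.1], by linarith [h1.2]⟩, mem_univ _⟩
  have h1 := Complex.integral_comp_polarCoord_symm ((ball (0 : ℂ) r).indicator G)
  rw [integral_indicator measurableSet_ball] at h1
  rw [← h1]
  have hsub : Ioo (0 : ℝ) r ×ˢ Ioo (-Real.pi) Real.pi ⊆ polarCoord.target := by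
    rw [polarCoord_target]
    exact prod_mono Ioo_subset_Ioi_self le_rfl
  have hsymm : ∀ p : ℝ × ℝ, Complex.polarCoord.symm p = (p.1 : ℂ) * ee p.2 := by
    intro p
    rw [Complex.polarCoord_symm_apply]
    unfold ee
    rw [Complex.exp_mul_I]
    push_cast
    ring
  rw [setIntegral_eq_of_subset_of_forall_sdiff_eq_zero
    (s := Ioo (0 : ℝ) r ×ˢ Ioo (-Real.pi) Real.pi)
    polarCoord.open_target.measurableSet hsub]
  · have h2 : ∫ p in Ioo (0 : ℝ) r ×ˢ Ioo (-Real.pi) Real.pi,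
        p.1 • (ball (0 : ℂ) r).indicator G (Complex.polarCoord.symm p)
        = ∫ p in Ioo (0 : ℝ) r ×ˢ Ioo (-Real.pi) Real.pi, p.1 * G ((p.1 : ℂ) * ee p.2) := by
      apply setIntegral_congr_fun (measurableSet_Ioo.prod measurableSet_Ioo)
      intro p hp
      simp only
      rw [hsymm, indicator_of_mem, smul_eq_mul]
      rw [mem_ball_zero_iff, norm_tee, abs_of_pos hp.1.1]
      exact hp.1.2
    rw [h2]
    rw [Measure.volume_eq_prod, setIntegral_prod]
    · rw [intervalIntegral.integral_of_le hr0, integral_Ioc_eq_integral_Ioo]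
      apply setIntegral_congr_fun measurableSet_Ioo
      intro t ht
      simp only
      rw [intervalIntegral.integral_of_le (by linarith [Real.pi_pos]),
        integral_Ioc_eq_integral_Ioo, integral_const_mul]
    · exact hint
  · intro p hp
    rw [polarCoord_target] at hp
    rw [hsymm, indicator_of_notMem, smul_zero]
    intro hb
    apply hp.2
    rw [mem_ball_zero_iff, norm_tee, abs_of_pos hp.1.1] at hb
    exact ⟨⟨hp.1.1, hb⟩, hp.1.2⟩

/-- **Hardy-Stein identity.** -/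
theorem hardy_stein (hL : DifferentiableOn ℂ L (ball 0 1)) (h1 : ∀ y, HasDerivAt f (f1 y) y)
    (h2 : ∀ y, HasDerivAt f1 (f2 y) y) (hc : Continuous f2) {r : ℝ} (hr0 : 0 ≤ r)
    (hr1 : r < 1) :
    (∫ θ in -Real.pi..Real.pi, f (L (circleMap 0 r θ)).im) - 2 * Real.pi * f (L 0).im
      = ∫ t in (0 : ℝ)..r, (1 / t) *
          ∫ z in ball (0 : ℂ) t, f2 (L z).im * ‖deriv L z‖ ^ 2 := by
  have hc1 : Continuous f1 := continuous_iff_continuousAt.2 fun y => (h2 y).continuousAt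
  simp_rw [circleMap_ee]
  rw [step1 hL h1 hc1 hr0 hr1]
  rw [intervalIntegral.integral_of_le hr0, intervalIntegral.integral_of_le hr0]
  refine setIntegral_congr_fun measurableSet_Ioc fun t ht => ?_
  have ht0 : (0 : ℝ) < t := ht.1
  have ht1 : t < 1 := by linarith [ht.2]
  have hs := step2 hL h2 hc1 hc ht0.le ht1
  have hp := polar_ball (cont_dens hL hc) ht0.le ht1
  have : ∫ z in ball (0 : ℂ) t, f2 (L z).im * ‖deriv L z‖ ^ 2
      = t * (∫ θ in -Real.pi..Real.pi, gg L f1 t θ) := by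
    rw [hs, ← hp]; rfl
  rw [this]
  field_simp

/-- The right integrand of `hardy_stein` is interval integrable. -/
theorem hardy_stein_integrable (hL : DifferentiableOn ℂ L (ball 0 1))
    (h2 : ∀ y, HasDerivAt f1 (f2 y) y) (hc : Continuous f2) {r : ℝ} (hr0 : 0 ≤ r)
    (hr1 : r < 1) :
    IntervalIntegrable (fun t : ℝ => (1 / t) *
          ∫ z in ball (0 : ℂ) t, f2 (L z).im * ‖deriv L z‖ ^ 2) volume 0 r := by
  have hc1 : Continuous f1 := continuous_iff_continuousAt.2 fun y => (h2 y).continuousAt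
  have hG := cont_gg hL hc1
  have h : IntervalIntegrable (fun t : ℝ => ∫ θ in -Real.pi..Real.pi, gg L f1 t θ) volume 0 r := by
    have hcomp : IsCompact (Icc (0 : ℝ) r ×ˢ Icc (-Real.pi) Real.pi) :=
      isCompact_Icc.prod isCompact_Icc
    have hint : IntegrableOn (fun p : ℝ × ℝ => gg L f1 p.1 p.2)
        (Ioc (0 : ℝ) r ×ˢ Ioc (-Real.pi) Real.pi) (volume.prod volume) := by
      refine ((hG.mono ?_).integrableOn_compact hcomp).mono_set
        (prod_mono Ioc_subset_Icc_self Ioc_subset_Icc_self)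
      rintro ⟨t, θ⟩ ⟨h1, -⟩
      exact ⟨⟨by linarith [h1.1], by linarith [h1.2]⟩, mem_univ _⟩
    rw [intervalIntegrable_iff_integrableOn_Ioc_of_le hr0]
    rw [IntegrableOn, ← Measure.prod_restrict] at hint
    have := hint.integral_prod_left
    refine this.congr (Filter.Eventually.of_forall fun t => ?_)
    simp only
    rw [intervalIntegral.integral_of_le (by linarith [Real.pi_pos])]
  rw [intervalIntegrable_iff_integrableOn_Ioc_of_le hr0] at h ⊢
  refine h.congr_fun (fun t ht => ?_) measurableSet_Ioc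
  have ht0 : (0 : ℝ) < t := ht.1
  have ht1 : t < 1 := by linarith [ht.2]
  have hs := step2 hL h2 hc1 hc ht0.le ht1
  have hp := polar_ball (cont_dens hL hc) ht0.le ht1
  have : ∫ z in ball (0 : ℂ) t, f2 (L z).im * ‖deriv L z‖ ^ 2
      = t * (∫ θ in -Real.pi..Real.pi, gg L f1 t θ) := by
    rw [hs, ← hp]; rfl
  rw [this]
  field_simp

end Pool.Agent.AllN24
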