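import Pool.Agent.AllN24.Defs

/-!
# Upper bound for the difference form of an achronal lift

Schwarz-Pick and Harnack for maps of the disc to the upper half-plane, and
`K(z,0) ≤ (|L'(0)| Im R(0) kap |z|)^2`.
-/

set_option autoImplicit false

namespace AllN24

open Complex Metric Set

theorem ku_nsq_conj (a b : ℂ) :
    ‖a - (starRingEnd ℂ) b‖ ^ 2 = ‖a - b‖ ^ 2 + 4 * (a.im * b.im) := by
  rw [Complex.sq_norm, Complex.sq_norm, Complex.normSq_apply, Complex.normSq_apply]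
  simp only [sub_re, sub_im, conj_re, conj_im]
  ring

theorem ku_nsq_disc (x y : ℂ) :
    ‖1 - (starRingEnd ℂ) y * x‖ ^ 2 = ‖x - y‖ ^ 2 + (1 - ‖x‖ ^ 2) * (1 - ‖y‖ ^ 2) := by
  simp only [Complex.sq_norm, Complex.normSq_apply, sub_re, sub_im, mul_re, mul_im, conj_re,
    conj_im, one_re, one_im]
  ring

/-- Schwarz-Pick for maps of the disc to the upper half-plane. -/
theorem schwarz_pick_half {R : ℂ → ℂ} (dR : DifferentiableOn ℂ R (ball 0 1))
    (hR : ∀ z ∈ ball (0:ℂ) 1, 0 < (R z).im) {x y : ℂ} (hx : x ∈ ball (0:ℂ) 1)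
    (hy : y ∈ ball (0:ℂ) 1) :
    ‖R x - R y‖ ^ 2 * ((1 - ‖x‖ ^ 2) * (1 - ‖y‖ ^ 2)) ≤
      4 * ((R x).im * (R y).im) * ‖x - y‖ ^ 2 := by
  have hx1 : ‖x‖ < 1 := by simpa using hx
  have hy1 : ‖y‖ < 1 := by simpa using hy
  have hxs : 0 < 1 - ‖x‖ ^ 2 := by nlinarith [norm_nonneg x]
  have hys : 0 < 1 - ‖y‖ ^ 2 := by nlinarith [norm_nonneg y]
  set cy : ℂ := (starRingEnd ℂ) y with hcy
  have hcyn : ‖cy‖ = ‖y‖ := by rw [hcy, Complex.norm_conj]
  -- the denominator of the Moebius map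
  have hden : ∀ ζ : ℂ, ‖ζ‖ < 1 → 1 + cy * ζ ≠ 0 := by
    intro ζ hζ h0
    have h1 : cy * ζ = -1 := by linear_combination h0
    have h2 : ‖cy * ζ‖ = 1 := by rw [h1, norm_neg, norm_one]
    rw [norm_mul, hcyn] at h2
    nlinarith [norm_nonneg y, norm_nonneg ζ]
  have hφ : ∀ ζ : ℂ, ‖ζ‖ < 1 → (ζ + y) / (1 + cy * ζ) ∈ ball (0:ℂ) 1 := by
    intro ζ hζ
    have hd := hden ζ hζ
    have hpos : 0 < ‖1 + cy * ζ‖ := norm_pos_iff.2 hd
    rw [mem_ball_zero_iff, norm_div, div_lt_one hpos]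
    have h := ku_nsq_disc ζ (-y)
    rw [map_neg, sub_neg_eq_add, norm_neg] at h
    have h' : ‖1 + cy * ζ‖ ^ 2 = ‖ζ + y‖ ^ 2 + (1 - ‖ζ‖ ^ 2) * (1 - ‖y‖ ^ 2) := by
      rw [← h, hcy]
      congr 2
      ring
    have hz : 0 < 1 - ‖ζ‖ ^ 2 := by nlinarith [norm_nonneg ζ]
    nlinarith [norm_nonneg (ζ + y), mul_pos hz hys]
  set W : ℂ → ℂ := fun ζ => (R ((ζ + y) / (1 + cy * ζ)) - R y) /
    (R ((ζ + y) / (1 + cy * ζ)) - (starRingEnd ℂ) (R y)) with hW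
  have hne : ∀ a ∈ ball (0:ℂ) 1, R a - (starRingEnd ℂ) (R y) ≠ 0 := by
    intro a ha h0
    have h1 := congrArg Complex.im h0
    rw [sub_im, conj_im, zero_im] at h1
    linarith [hR a ha, hR y hy]
  have hdφ : DifferentiableOn ℂ (fun ζ : ℂ => (ζ + y) / (1 + cy * ζ)) (ball 0 1) := by
    refine DifferentiableOn.div ?_ ?_ ?_
    · exact (differentiable_id.add_const y).differentiableOn
    · exact ((differentiable_id.const_mul cy).const_add 1).differentiableOn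
    · intro ζ hζ
      exact hden ζ (by simpa using hζ)
  have hcomp : DifferentiableOn ℂ (fun ζ : ℂ => R ((ζ + y) / (1 + cy * ζ))) (ball 0 1) :=
    dR.comp hdφ (fun ζ hζ => hφ ζ (by simpa using hζ))
  have hdW : DifferentiableOn ℂ W (ball 0 1) := by
    refine DifferentiableOn.div (hcomp.sub_const _) (hcomp.sub_const _) ?_
    intro ζ hζ
    exact hne _ (hφ ζ (by simpa using hζ))
  have hW1 : MapsTo W (ball 0 1) (closedBall 0 1) := by
    intro ζ hζ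
    have ha := hφ ζ (by simpa using hζ)
    rw [mem_closedBall_zero_iff, hW]
    simp only
    rw [norm_div, div_le_one (norm_pos_iff.2 (hne _ ha))]
    have h := ku_nsq_conj (R ((ζ + y) / (1 + cy * ζ))) (R y)
    have h2 := mul_pos (hR _ ha) (hR y hy)
    exact le_of_sq_le_sq (by nlinarith) (norm_nonneg _)
  have hW0 : W 0 = 0 := by
    simp [hW]
  -- the point
  have hd0 : 1 - cy * x ≠ 0 := by
    have := hden (-x) (by rwa [norm_neg])
    intro h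
    exact this (by linear_combination h)
  have hdisc := ku_nsq_disc x y
  rw [← hcy] at hdisc
  have hζ : ‖(x - y) / (1 - cy * x)‖ < 1 := by
    rw [norm_div, div_lt_one (norm_pos_iff.2 hd0)]
    nlinarith [norm_nonneg (x - y), norm_nonneg (1 - cy * x), mul_pos hxs hys]
  have hback : ((x - y) / (1 - cy * x) + y) / (1 + cy * ((x - y) / (1 - cy * x))) = x := by
    have hq : (1 : ℂ) - cy * y ≠ 0 := by
      have := hden (-y) (by rwa [norm_neg])
      intro h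
      exact this (by linear_combination h)
    have e1 : (x - y) / (1 - cy * x) + y = x * (1 - cy * y) / (1 - cy * x) := by
      rw [div_add' _ _ _ hd0]
      congr 1
      ring
    have e2 : 1 + cy * ((x - y) / (1 - cy * x)) = (1 - cy * y) / (1 - cy * x) := by
      rw [mul_div_assoc', add_div' _ _ _ hd0]
      congr 1
      ring
    rw [e1, e2, div_div_div_cancel_right₀ hd0, mul_div_cancel_right₀ _ hq]
  have hS := Complex.norm_le_norm_of_mapsTo_ball hdW hW1 hW0 hζ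
  rw [hW] at hS
  simp only at hS
  rw [hback, norm_div, norm_div] at hS
  have hp1 : 0 < ‖R x - (starRingEnd ℂ) (R y)‖ := norm_pos_iff.2 (hne x hx)
  have hp2 : 0 < ‖1 - cy * x‖ := norm_pos_iff.2 hd0
  rw [div_le_div_iff₀ hp1 hp2] at hS
  have hS2 : (‖R x - R y‖ * ‖1 - cy * x‖) ^ 2 ≤ (‖x - y‖ * ‖R x - (starRingEnd ℂ) (R y)‖) ^ 2 :=
    pow_le_pow_left₀ (by positivity) hS 2
  rw [mul_pow, mul_pow, hdisc, ku_nsq_conj] at hS2
  nlinarith

/-- Harnack for maps of the disc to the upper half-plane. -/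
theorem harnack_half {R : ℂ → ℂ} (dR : DifferentiableOn ℂ R (ball 0 1))
    (hR : ∀ z ∈ ball (0:ℂ) 1, 0 < (R z).im) {z : ℂ} (hz : z ∈ ball (0:ℂ) 1) :
    (R 0).im * ((1 - ‖z‖) / (1 + ‖z‖)) ≤ (R z).im := by
  have h0 : (0:ℂ) ∈ ball (0:ℂ) 1 := by simp
  have hz1 : ‖z‖ < 1 := by simpa using hz
  have hSP := schwarz_pick_half dR hR hz h0
  rw [norm_zero, sub_zero] at hSP
  set ρ := ‖z‖ with hρ
  have hρ0 : 0 ≤ ρ := norm_nonneg z
  have hI := hR z hz
  have hJ := hR 0 h0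
  set I := (R z).im with hIdef
  set J := (R 0).im with hJdef
  have him : (I - J) ^ 2 ≤ ‖R z - R 0‖ ^ 2 := by
    have := Complex.abs_im_le_norm (R z - R 0)
    rw [sub_im] at this
    rw [← sq_abs (I - J)]
    exact pow_le_pow_left₀ (abs_nonneg _) this 2
  have hρ2 : 0 < 1 - ρ ^ 2 := by nlinarith
  have hkey : (I - J) ^ 2 * (1 - ρ ^ 2) ≤ 4 * (I * J) * ρ ^ 2 := by nlinarith
  -- factor
  have hfac : (I * (1 - ρ) - J * (1 + ρ)) * (I * (1 + ρ) - J * (1 - ρ)) ≤ 0 := by nlinarith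
  rw [mul_div_assoc', div_le_iff₀ (by linarith)]
  by_contra hcon
  push Not at hcon
  have h1 : I * (1 + ρ) - J * (1 - ρ) < 0 := by linarith
  have h2 : I * (1 - ρ) - J * (1 + ρ) < 0 := by nlinarith
  have := mul_pos_of_neg_of_neg h2 h1
  linarith

/-- The polarised form on derivatives of null curves. -/
theorem ku_polar (A B r s : ℂ) :
    2 * ((A * r).im * (B * s).im) - A.im * (B * s ^ 2).im - (A * r ^ 2).im * B.im ≤
      ‖A‖ * ‖B‖ * (‖r - s‖ ^ 2 + 2 * (r.im * s.im)) := by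
  have hid : 2 * ((A * r).im * (B * s).im) - A.im * (B * s ^ 2).im - (A * r ^ 2).im * B.im =
      (A * B * (r - s) ^ 2).re / 2 - (A * (starRingEnd ℂ) B * (r - (starRingEnd ℂ) s) ^ 2).re / 2 := by
    simp only [pow_two, mul_re, mul_im, sub_re, sub_im, conj_re, conj_im]
    ring
  have h1 : (A * B * (r - s) ^ 2).re ≤ ‖A‖ * ‖B‖ * ‖r - s‖ ^ 2 := by
    refine (Complex.re_le_norm _).trans ?_
    rw [norm_mul, norm_mul, norm_pow]
  have h2 : -(A * (starRingEnd ℂ) B * (r - (starRingEnd ℂ) s) ^ 2).re ≤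
      ‖A‖ * ‖B‖ * (‖r - s‖ ^ 2 + 4 * (r.im * s.im)) := by
    rw [← ku_nsq_conj]
    calc -(A * (starRingEnd ℂ) B * (r - (starRingEnd ℂ) s) ^ 2).re
        ≤ |(A * (starRingEnd ℂ) B * (r - (starRingEnd ℂ) s) ^ 2).re| := neg_le_abs _
      _ ≤ ‖A * (starRingEnd ℂ) B * (r - (starRingEnd ℂ) s) ^ 2‖ := Complex.abs_re_le_norm _
      _ = ‖A‖ * ‖B‖ * ‖r - (starRingEnd ℂ) s‖ ^ 2 := by
        rw [norm_mul, norm_mul, norm_pow, Complex.norm_conj]
  rw [hid]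
  nlinarith

/-- Comparison of two functions by their derivatives. -/
theorem ku_compare {f f' B B' : ℝ → ℝ} {T : ℝ} (hT : 0 ≤ T)
    (hf : ∀ t, 0 ≤ t → t ≤ T → HasDerivAt f (f' t) t)
    (hB : ∀ t, 0 ≤ t → t ≤ T → HasDerivAt B (B' t) t)
    (h0 : f 0 ≤ B 0) (h : ∀ t, 0 ≤ t → t ≤ T → f' t ≤ B' t) : f T ≤ B T := by
  refine image_le_of_deriv_right_le_deriv_boundary (a := 0) (b := T) (f' := f') (B' := B')
    ?_ ?_ h0 ?_ ?_ ?_ ⟨hT, le_refl T⟩
  · intro t ht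
    exact (hf t ht.1 ht.2).continuousAt.continuousWithinAt
  · intro t ht
    exact (hf t ht.1 ht.2.le).hasDerivWithinAt
  · intro t ht
    exact (hB t ht.1 ht.2).continuousAt.continuousWithinAt
  · intro t ht
    exact (hB t ht.1 ht.2.le).hasDerivWithinAt
  · intro t ht
    exact h t ht.1 ht.2.le

/-- Derivative of the imaginary part along a radius. -/
theorem ku_deriv {F : ℂ → ℂ} (dF : DifferentiableOn ℂ F (ball 0 1)) {ζ : ℂ} (hζ : ‖ζ‖ = 1) {t : ℝ}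
    (ht0 : 0 ≤ t) (ht1 : t < 1) :
    HasDerivAt (fun s : ℝ => (F ((s : ℂ) * ζ) - F 0).im) ((ζ * deriv F ((t : ℂ) * ζ)).im) t := by
  have hmem : (t : ℂ) * ζ ∈ ball (0:ℂ) 1 := by
    rw [mem_ball_zero_iff, norm_mul, hζ, mul_one, Complex.norm_real, Real.norm_eq_abs,
      abs_of_nonneg ht0]
    exact ht1
  have h1 : HasDerivAt F (deriv F ((t : ℂ) * ζ)) ((t : ℂ) * ζ) :=
    (dF.differentiableAt (isOpen_ball.mem_nhds hmem)).hasDerivAt
  have h2 : HasDerivAt (fun s : ℝ => (s : ℂ) * ζ) (1 * ζ) t :=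
    (Complex.ofRealCLM.hasDerivAt (x := t)).mul_const ζ
  have h3 : HasDerivAt (fun s : ℝ => F ((s : ℂ) * ζ)) (deriv F ((t : ℂ) * ζ) * (1 * ζ)) t :=
    HasDerivAt.comp (𝕜' := ℂ) t h1 h2
  have h4 : HasDerivAt (fun s : ℝ => F ((s : ℂ) * ζ) - F 0) (deriv F ((t : ℂ) * ζ) * (1 * ζ)) t :=
    h3.sub_const _
  have h5 := (Complex.imCLM.hasFDerivAt.comp_hasDerivAt t h4)
  have e : (ζ * deriv F ((t : ℂ) * ζ)).im = Complex.imCLM (deriv F ((t : ℂ) * ζ) * (1 * ζ)) := by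
    rw [Complex.imCLM_apply]
    congr 1
    ring
  rw [e]
  exact h5

theorem ku_E3 {a I b J D t s l0 : ℝ} (ht0 : 0 ≤ t) (ht1 : t < 1) (hs0 : 0 ≤ s) (hs1 : s < 1)
    (ha : 0 ≤ a) (hb : 0 ≤ b) (_hI : 0 < I) (hJ : 0 < J) (hl0 : 0 ≤ l0)
    (h1 : (1 - t ^ 2) * (a * I) ≤ l0 * ((1 + t) / (1 - t)) ^ 2)
    (h2 : (1 - s ^ 2) * (b * J) ≤ l0 * ((1 + s) / (1 - s)) ^ 2)
    (hD : D * ((1 - t ^ 2) * (1 - s ^ 2)) ≤ 4 * (I * J) * (t - s) ^ 2) :
    a * b * (D + 2 * (I * J)) ≤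
      (l0 * (1 + t) ^ 2 / (1 - t) ^ 4) * (l0 / (1 - s) ^ 2) +
        (l0 / (1 - t) ^ 2) * (l0 * (1 + s) ^ 2 / (1 - s) ^ 4) := by
  have ht : 0 < 1 - t := by linarith
  have hs : 0 < 1 - s := by linarith
  have ht2 : 0 < 1 - t ^ 2 := by nlinarith
  have hs2 : 0 < 1 - s ^ 2 := by nlinarith
  have e1 : a * I ≤ l0 * (1 + t) / (1 - t) ^ 3 := by
    rw [le_div_iff₀ (by positivity)]
    rw [div_pow, mul_div_assoc', le_div_iff₀ (by positivity)] at h1
    have h3 : (1 + t) * (a * I * (1 - t) ^ 3) ≤ (1 + t) * (l0 * (1 + t)) := by nlinarith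
    exact le_of_mul_le_mul_left h3 (by linarith)
  have e2 : b * J ≤ l0 * (1 + s) / (1 - s) ^ 3 := by
    rw [le_div_iff₀ (by positivity)]
    rw [div_pow, mul_div_assoc', le_div_iff₀ (by positivity)] at h2
    have h3 : (1 + s) * (b * J * (1 - s) ^ 3) ≤ (1 + s) * (l0 * (1 + s)) := by nlinarith
    exact le_of_mul_le_mul_left h3 (by linarith)
  have e3 : (a * I) * (b * J) ≤ (l0 * (1 + t) / (1 - t) ^ 3) * (l0 * (1 + s) / (1 - s) ^ 3) :=
    mul_le_mul e1 e2 (by positivity) (by positivity)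
  have e4 : D + 2 * (I * J) ≤ (I * J) * (4 * (t - s) ^ 2 / ((1 - t ^ 2) * (1 - s ^ 2)) + 2) := by
    have : D ≤ 4 * (I * J) * (t - s) ^ 2 / ((1 - t ^ 2) * (1 - s ^ 2)) := by
      rw [le_div_iff₀ (by positivity)]
      exact hD
    calc D + 2 * (I * J) ≤ 4 * (I * J) * (t - s) ^ 2 / ((1 - t ^ 2) * (1 - s ^ 2)) + 2 * (I * J) := by
          linarith
      _ = _ := by ring
  calc a * b * (D + 2 * (I * J))
      ≤ a * b * ((I * J) * (4 * (t - s) ^ 2 / ((1 - t ^ 2) * (1 - s ^ 2)) + 2)) :=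
        mul_le_mul_of_nonneg_left e4 (by positivity)
    _ = ((a * I) * (b * J)) * (4 * (t - s) ^ 2 / ((1 - t ^ 2) * (1 - s ^ 2)) + 2) := by ring
    _ ≤ ((l0 * (1 + t) / (1 - t) ^ 3) * (l0 * (1 + s) / (1 - s) ^ 3)) *
        (4 * (t - s) ^ 2 / ((1 - t ^ 2) * (1 - s ^ 2)) + 2) :=
        mul_le_mul_of_nonneg_right e3 (by positivity)
    _ = (l0 * (1 + t) ^ 2 / (1 - t) ^ 4) * (l0 / (1 - s) ^ 2) +
        (l0 / (1 - t) ^ 2) * (l0 * (1 + s) ^ 2 / (1 - s) ^ 4) := by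
      have ht2' : (1 - t ^ 2) = (1 - t) * (1 + t) := by ring
      have hs2' : (1 - s ^ 2) = (1 - s) * (1 + s) := by ring
      have hpt : (1 + t) ≠ 0 := by positivity
      have hps : (1 + s) ≠ 0 := by positivity
      have hmt : (1 - t) ≠ 0 := ht.ne'
      have hms : (1 - s) ≠ 0 := hs.ne'
      rw [ht2', hs2']
      field_simp
      ring

/-- derivative of `J_-` -/
theorem ku_Jm (l0 : ℝ) {t : ℝ} (ht : t < 1) :
    HasDerivAt (fun s : ℝ => l0 * ((1 + s) / (1 - s) - 1) / 2) (l0 / (1 - t) ^ 2) t := by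
  have hne : (1 - t) ≠ 0 := by linarith
  have h1 : HasDerivAt (fun s : ℝ => (1 + s) / (1 - s)) ((1 * (1 - t) - (1 + t) * (-1)) / (1 - t) ^ 2) t :=
    ((hasDerivAt_id t).const_add 1).div ((hasDerivAt_id t).const_sub 1) hne
  have h2 := ((h1.sub_const 1).const_mul l0).div_const 2
  refine h2.congr_deriv ?_
  field_simp
  ring

/-- derivative of `J_+` -/
theorem ku_Jp (l0 : ℝ) {t : ℝ} (ht : t < 1) :
    HasDerivAt (fun s : ℝ => l0 * (((1 + s) / (1 - s)) ^ 3 - 1) / 6)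
      (l0 * (1 + t) ^ 2 / (1 - t) ^ 4) t := by
  have hne : (1 - t) ≠ 0 := by linarith
  have h1 : HasDerivAt (fun s : ℝ => (1 + s) / (1 - s)) ((1 * (1 - t) - (1 + t) * (-1)) / (1 - t) ^ 2) t :=
    ((hasDerivAt_id t).const_add 1).div ((hasDerivAt_id t).const_sub 1) hne
  have h2 := (((h1.pow 3).sub_const 1).const_mul l0).div_const 6
  refine h2.congr_deriv ?_
  have e : (1 * (1 - t) - (1 + t) * (-1)) = 2 := by ring
  rw [e, show (3 - 1 : ℕ) = 2 from rfl, div_pow]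
  push_cast
  field_simp
  ring

/-- Upper bound for `K` on the disc. -/
theorem K_upper {L F G R : ℂ → ℂ} (h : AchLift L F G R)
    (hrad : ∀ z ∈ ball (0:ℂ) 1, (1 - ‖z‖ ^ 2) * (‖deriv L z‖ * (R z).im)
      ≤ ‖deriv L 0‖ * (R 0).im * ((1 + ‖z‖) / (1 - ‖z‖)) ^ 2) {z : ℂ} (hz : z ∈ ball (0:ℂ) 1) :
    K L F G z 0 ≤ (‖deriv L 0‖ * (R 0).im * kap ‖z‖) ^ 2 := by
  by_cases hz0 : z = 0
  · subst hz0
    simp only [K, sub_self, zero_im]
    have := sq_nonneg (‖deriv L 0‖ * (R 0).im * kap ‖(0:ℂ)‖)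
    nlinarith
  set T := ‖z‖ with hT
  have hT0 : 0 < T := norm_pos_iff.2 hz0
  have hT1 : T < 1 := by simpa using hz
  set ζ : ℂ := z / (T : ℂ) with hζdef
  have hTc : (T : ℂ) ≠ 0 := by exact_mod_cast hT0.ne'
  have hζ : ‖ζ‖ = 1 := by
    rw [hζdef, norm_div, Complex.norm_real, Real.norm_eq_abs, abs_of_pos hT0, ← hT,
      div_self hT0.ne']
  have hTζ : (T : ℂ) * ζ = z := by rw [hζdef, mul_div_cancel₀ _ hTc]
  set l0 := ‖deriv L 0‖ * (R 0).im with hl0def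
  have h0mem : (0:ℂ) ∈ ball (0:ℂ) 1 := by simp
  have hl0 : 0 ≤ l0 := mul_nonneg (norm_nonneg _) (h.hR 0 h0mem).le
  have hmem : ∀ t : ℝ, 0 ≤ t → t < 1 → (t : ℂ) * ζ ∈ ball (0:ℂ) 1 := by
    intro t ht0 ht1
    rw [mem_ball_zero_iff, norm_mul, hζ, mul_one, Complex.norm_real, Real.norm_eq_abs,
      abs_of_nonneg ht0]
    exact ht1
  have hnorm : ∀ t : ℝ, 0 ≤ t → ‖(t : ℂ) * ζ‖ = t := by
    intro t ht0
    rw [norm_mul, hζ, mul_one, Complex.norm_real, Real.norm_eq_abs, abs_of_nonneg ht0]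
  -- the curves
  set l : ℝ → ℝ := fun t => (L ((t : ℂ) * ζ) - L 0).im with hldef
  set f : ℝ → ℝ := fun t => (F ((t : ℂ) * ζ) - F 0).im with hfdef
  set g : ℝ → ℝ := fun t => (G ((t : ℂ) * ζ) - G 0).im with hgdef
  set l' : ℝ → ℝ := fun t => (ζ * deriv L ((t : ℂ) * ζ)).im with hl'def
  set f' : ℝ → ℝ := fun t => (ζ * deriv F ((t : ℂ) * ζ)).im with hf'def
  set g' : ℝ → ℝ := fun t => (ζ * deriv G ((t : ℂ) * ζ)).im with hg'def
  have hl : ∀ t, 0 ≤ t → t < 1 → HasDerivAt l (l' t) t := fun t h0 h1 => ku_deriv h.dL hζ h0 h1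
  have hf : ∀ t, 0 ≤ t → t < 1 → HasDerivAt f (f' t) t := fun t h0 h1 => ku_deriv h.dF hζ h0 h1
  have hg : ∀ t, 0 ≤ t → t < 1 → HasDerivAt g (g' t) t := fun t h0 h1 => ku_deriv h.dG hζ h0 h1
  set Jm : ℝ → ℝ := fun s => l0 * ((1 + s) / (1 - s) - 1) / 2 with hJm
  set Jp : ℝ → ℝ := fun s => l0 * (((1 + s) / (1 - s)) ^ 3 - 1) / 6 with hJp
  set jm : ℝ → ℝ := fun t => l0 / (1 - t) ^ 2 with hjm
  set jp : ℝ → ℝ := fun t => l0 * (1 + t) ^ 2 / (1 - t) ^ 4 with hjp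
  -- the pointwise inequality
  have hpt : ∀ t s, 0 ≤ t → t < 1 → 0 ≤ s → s < 1 →
      2 * (f' t * f' s) - g' t * l' s - g' s * l' t ≤ jp t * jm s + jm t * jp s := by
    intro t s ht0 ht1 hs0 hs1
    have hmt := hmem t ht0 ht1
    have hms := hmem s hs0 hs1
    have hnt := hnorm t ht0
    have hns := hnorm s hs0
    have hA := ku_polar (ζ * deriv L ((t : ℂ) * ζ)) (ζ * deriv L ((s : ℂ) * ζ))
      (R ((t : ℂ) * ζ)) (R ((s : ℂ) * ζ))
    rw [norm_mul, norm_mul, hζ, one_mul, one_mul] at hA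
    have eft : f' t = (ζ * deriv L ((t : ℂ) * ζ) * R ((t : ℂ) * ζ)).im := by
      simp only [hf'def]
      rw [h.hF _ hmt]
      congr 1
      ring
    have efs : f' s = (ζ * deriv L ((s : ℂ) * ζ) * R ((s : ℂ) * ζ)).im := by
      simp only [hf'def]
      rw [h.hF _ hms]
      congr 1
      ring
    have egt : g' t = (ζ * deriv L ((t : ℂ) * ζ) * R ((t : ℂ) * ζ) ^ 2).im := by
      simp only [hg'def]
      rw [h.hG _ hmt]
      congr 1
      ring
    have egs : g' s = (ζ * deriv L ((s : ℂ) * ζ) * R ((s : ℂ) * ζ) ^ 2).im := by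
      simp only [hg'def]
      rw [h.hG _ hms]
      congr 1
      ring
    have h1 := hrad _ hmt
    have h2 := hrad _ hms
    rw [hnt] at h1
    rw [hns] at h2
    have hSP := schwarz_pick_half h.dR h.hR hmt hms
    rw [hnt, hns] at hSP
    have hdiff : ‖(t : ℂ) * ζ - (s : ℂ) * ζ‖ ^ 2 = (t - s) ^ 2 := by
      rw [← sub_mul, norm_mul, hζ, mul_one, ← Complex.ofReal_sub, Complex.norm_real,
        Real.norm_eq_abs, sq_abs]
    rw [hdiff] at hSP
    have hE := ku_E3 (a := ‖deriv L ((t : ℂ) * ζ)‖) (b := ‖deriv L ((s : ℂ) * ζ)‖) ht0 ht1 hs0 hs1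
      (norm_nonneg _) (norm_nonneg _) (h.hR _ hmt) (h.hR _ hms) hl0 h1 h2 hSP
    rw [eft, efs, egt, egs]
    simp only [hl'def, hjp, hjm]
    linarith
  -- the inner comparison
  have hQ : ∀ t, 0 ≤ t → t < 1 →
      2 * (f t * f' t) - g' t * l t - g t * l' t ≤ jp t * Jm t + jm t * Jp t := by
    intro t ht0 ht1
    refine ku_compare (f := fun s => 2 * (f s * f' t) - g' t * l s - g s * l' t)
      (f' := fun s => 2 * (f' s * f' t) - g' t * l' s - g' s * l' t)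
      (B := fun s => jp t * Jm s + jm t * Jp s) (B' := fun s => jp t * jm s + jm t * jp s)
      ht0 ?_ ?_ ?_ ?_
    · intro s hs0 hst
      have hs1 : s < 1 := lt_of_le_of_lt hst ht1
      exact ((((hf s hs0 hs1).mul_const (f' t)).const_mul 2).sub
        ((hl s hs0 hs1).const_mul (g' t))).sub ((hg s hs0 hs1).mul_const (l' t))
    · intro s hs0 hst
      have hs1 : s < 1 := lt_of_le_of_lt hst ht1
      exact ((ku_Jm l0 hs1).const_mul (jp t)).add ((ku_Jp l0 hs1).const_mul (jm t))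
    · simp [hldef, hfdef, hgdef, hJm, hJp]
    · intro s hs0 hst
      have hs1 : s < 1 := lt_of_le_of_lt hst ht1
      have := hpt t s ht0 ht1 hs0 hs1
      linarith
  -- the outer comparison
  have hK : f T ^ 2 - g T * l T ≤ Jp T * Jm T := by
    refine ku_compare (f := fun t => f t ^ 2 - g t * l t)
      (f' := fun t => 2 * (f t * f' t) - g' t * l t - g t * l' t)
      (B := fun t => Jp t * Jm t) (B' := fun t => jp t * Jm t + jm t * Jp t)
      hT0.le ?_ ?_ ?_ ?_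
    · intro t ht0 htT
      have ht1 : t < 1 := lt_of_le_of_lt htT hT1
      refine (((hf t ht0 ht1).pow 2).sub ((hg t ht0 ht1).mul (hl t ht0 ht1))).congr_deriv ?_
      push_cast
      ring
    · intro t ht0 htT
      have ht1 : t < 1 := lt_of_le_of_lt htT hT1
      refine ((ku_Jp l0 ht1).mul (ku_Jm l0 ht1)).congr_deriv ?_
      ring
    · simp [hldef, hfdef, hgdef, hJm, hJp]
    · intro t ht0 htT
      exact hQ t ht0 (lt_of_le_of_lt htT hT1)
  have hKe : K L F G z 0 = f T ^ 2 - g T * l T := by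
    simp only [K, hldef, hfdef, hgdef]
    rw [hTζ]
  rw [hKe]
  refine hK.trans (le_of_eq ?_)
  simp only [hJp, hJm, kap]
  have hm : (1 - T) ≠ 0 := by linarith
  have hsq : Real.sqrt (1 + T ^ 2 / 3) ^ 2 = 1 + T ^ 2 / 3 := Real.sq_sqrt (by positivity)
  have e : (l0 * (T / (1 - T) ^ 2 * Real.sqrt (1 + T ^ 2 / 3))) ^ 2 =
      l0 ^ 2 * (T ^ 2 / (1 - T) ^ 4) * (1 + T ^ 2 / 3) := by
    rw [mul_pow, mul_pow (T / (1 - T) ^ 2), hsq, div_pow]
    ring
  rw [e]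
  field_simp
  ring

end AllN24
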