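import Pool.Agent.AllN24.Final
import Pool.Agent.CSH.Final

/-!
# Quadratic growth of the coefficients of univalent harmonic maps: conclusion
-/

set_option autoImplicit false

open Complex Metric Set
open scoped ComplexConjugate Nat

namespace AllN24

/-- the lift theorem for all Taylor coefficients up to a given order -/
theorem lift_all : LiftAll := by
  intro h g r hU m
  obtain ⟨L, F, G, R, hA, hc⟩ := Pool.CSH.lift_exists hU m
  refine ⟨L, F, G, R, hA, ?_⟩
  intro k hk1 hk2
  obtain ⟨j, rfl⟩ : ∃ j : ℕ, k = j + 1 := ⟨k - 1, by omega⟩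
  rw [hc j (by omega)]
  have : (((j + 1)! : ℕ) : ℂ) ≠ 0 := by exact_mod_cast (Nat.factorial_pos _).ne'
  field_simp

theorem cst_lt : cst < 2.72 := by
  unfold cst
  have h1 : Real.exp 2 < 7.3891 := by
    have h := Real.exp_one_lt_d9
    have h0 := Real.exp_pos 1
    have : Real.exp 2 = Real.exp 1 ^ 2 := by rw [← Real.exp_nat_mul]; norm_num
    rw [this]
    nlinarith
  have h2 : (1.732 : ℝ) < Real.sqrt 3 := by
    rw [Real.lt_sqrt (by norm_num)]; norm_num
  have h3 := Real.pi_gt_d4
  have h4 : (5.441 : ℝ) < Real.sqrt 3 * Real.pi := by nlinarith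
  rw [div_lt_iff₀ (by positivity)]
  nlinarith

end AllN24
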