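import Pool.Agent.AllN24.MeanGrowth

/-!
# Growth of the means of `|Im L|`, general form

The disc of radius `t` is split into two sets, with different bounds for `1 / Im R` and `K`.
-/

open Complex Set MeasureTheory Filter Topology Metric
open scoped Real
open Pool.Agent.HU26

namespace AllN24

/-- The area bound on a measurable subset of a disc. -/
theorem mg_area_set {L F R : ℂ → ℂ} (dL : DifferentiableOn ℂ L (ball 0 1))
    (dF : DifferentiableOn ℂ F (ball 0 1)) (dR : DifferentiableOn ℂ R (ball 0 1))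
    (hF : ∀ z ∈ ball (0 : ℂ) 1, deriv F z = R z * deriv L z)
    (hR : ∀ z ∈ ball (0 : ℂ) 1, 0 < (R z).im)
    (hinj : ∀ x ∈ ball (0 : ℂ) 1, ∀ y ∈ ball (0 : ℂ) 1, (F x).im = (F y).im →
      (L x).im = (L y).im → x = y)
    {r : ℝ} (hr1 : r < 1) {S : Set ℂ} (hS : MeasurableSet S) (hSr : S ⊆ ball 0 r)
    {ε W c : ℝ} (hε : 0 < ε) (hW0 : 0 ≤ W)
    (hW : ∀ z ∈ S, |(L z).im| ≤ ε → |(F z).im| ≤ W) (hc : 0 < c)
    (hcR : ∀ z ∈ S, c ≤ (R z).im) :
    ∫ z in S, mg_psi ε (L z).im * ‖deriv L z‖ ^ 2 ≤ 4 * W / c := by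
  have hsub : S ⊆ ball 0 1 := hSr.trans (ball_subset_ball hr1.le)
  have dL' : DifferentiableOn ℂ (deriv L) (ball 0 1) := dL.deriv isOpen_ball
  set Φ : ℂ → ℂ := fun z => ((F z).im : ℂ) + ((L z).im : ℂ) * I with hΦ
  have hre : ∀ z, (Φ z).re = (F z).im := fun z => by simp [hΦ]
  have him : ∀ z, (Φ z).im = (L z).im := fun z => by simp [hΦ]
  -- derivative
  have hder : ∀ z ∈ ball (0 : ℂ) 1, ∃ A : ℂ →L[ℝ] ℂ, HasFDerivAt Φ A z ∧
      A.det = (R z).im * ‖deriv L z‖ ^ 2 := by
    intro z hz
    have h3 := (mg_hda dF hz).hasFDerivAt.restrictScalars ℝ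
    have h4 := (mg_hda dL hz).hasFDerivAt.restrictScalars ℝ
    have h5 := Complex.ofRealCLM.hasFDerivAt.comp z (Complex.imCLM.hasFDerivAt.comp z h3)
    have h6 := Complex.ofRealCLM.hasFDerivAt.comp z (Complex.imCLM.hasFDerivAt.comp z h4)
    have h7 := h5.add (h6.mul_const I)
    refine ⟨_, h7, ?_⟩
    rw [ContinuousLinearMap.det, det_clm]
    rw [hF z hz]
    simp [Complex.sq_norm, Complex.normSq_apply]
    ring
  choose! A hA using hder
  have hinjΦ : InjOn Φ S := by
    intro x hx y hy hxy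
    refine hinj x (hsub hx) y (hsub hy) ?_ ?_
    · rw [← hre, ← hre, hxy]
    · rw [← him, ← him, hxy]
  have hcov := integral_image_eq_integral_abs_det_fderiv_smul volume hS
    (fun z hz => (hA z (hsub hz)).1.hasFDerivWithinAt) hinjΦ (fun w : ℂ => mg_psi ε w.im)
  have hcov' : ∫ z in S, (R z).im * (mg_psi ε (L z).im * ‖deriv L z‖ ^ 2) =
      ∫ w in Φ '' S, mg_psi ε w.im := by
    rw [hcov]
    apply setIntegral_congr_fun hS
    intro z hz
    simp only
    have h1 := hR z (hsub hz)
    rw [(hA z (hsub hz)).2, abs_of_nonneg (by positivity), smul_eq_mul, him]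
    ring
  -- the image is in the rectangle, up to zeros of the integrand
  have hmeas : MeasurableSet (Φ '' S) :=
    measurable_image_of_fderivWithin hS
      (fun z hz => (hA z (hsub hz)).1.hasFDerivWithinAt) hinjΦ
  set Q : Set ℂ := {w : ℂ | |w.re| ≤ W ∧ |w.im| ≤ ε} with hQ
  have hQcl : IsClosed Q := by
    have h1 : IsClosed {w : ℂ | |w.re| ≤ W} := isClosed_le (by fun_prop) (by fun_prop)
    have h2 : IsClosed {w : ℂ | |w.im| ≤ ε} := isClosed_le (by fun_prop) (by fun_prop)
    exact h1.inter h2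
  have hQm : MeasurableSet Q := hQcl.measurableSet
  have hQc : IsCompact Q := by
    refine Metric.isCompact_of_isClosed_isBounded hQcl ?_
    rw [isBounded_iff_forall_norm_le]
    exact ⟨W + ε, fun w hw => (Complex.norm_le_abs_re_add_abs_im w).trans
      (add_le_add hw.1 hw.2)⟩
  have hcont : Continuous fun w : ℂ => mg_psi ε w.im := (mg_psi_cont ε).comp Complex.continuous_im
  have hint : Integrable (Q.indicator fun w : ℂ => mg_psi ε w.im) :=
    (hcont.continuousOn.integrableOn_compact hQc).integrable_indicator hQm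
  have hle : ∫ w in Φ '' S, mg_psi ε w.im ≤ 4 * W := by
    rw [← mg_rect hε hW0, ← integral_indicator hmeas, ← integral_indicator hQm]
    refine integral_mono_of_nonneg ?_ hint ?_
    · refine Eventually.of_forall fun w => ?_
      exact indicator_nonneg (fun w _ => mg_psi_nonneg hε _) w
    · refine Eventually.of_forall fun w => ?_
      show (Φ '' S).indicator (fun w : ℂ => mg_psi ε w.im) w ≤
        Q.indicator (fun w : ℂ => mg_psi ε w.im) w
      by_cases hw : w ∈ Φ '' S
      · rw [indicator_of_mem hw]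
        by_cases hwε : |w.im| ≤ ε
        · rw [indicator_of_mem]
          obtain ⟨z, hz, rfl⟩ := hw
          refine ⟨?_, hwε⟩
          rw [hre]
          rw [him] at hwε
          exact hW z hz hwε
        · rw [mg_psi_zero hε (le_of_lt (not_le.1 hwε))]
          exact indicator_nonneg (fun w _ => mg_psi_nonneg hε _) w
      · rw [indicator_of_notMem hw]
        exact indicator_nonneg (fun w _ => mg_psi_nonneg hε _) w
  rw [le_div_iff₀ hc]
  refine le_trans ?_ hle
  rw [← hcov', ← integral_mul_const]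
  have hcG : ContinuousOn (fun z => mg_psi ε (L z).im * ‖deriv L z‖ ^ 2) (ball (0 : ℂ) 1) :=
    ((mg_psi_cont ε).comp_continuousOn
      (Complex.continuous_im.comp_continuousOn dL.continuousOn)).mul (dL'.continuousOn.norm.pow 2)
  have hclb : closedBall (0 : ℂ) r ⊆ ball 0 1 := closedBall_subset_ball hr1
  have hScl : S ⊆ closedBall 0 r := hSr.trans ball_subset_closedBall
  have hi1 : IntegrableOn (fun z => mg_psi ε (L z).im * ‖deriv L z‖ ^ 2 * c) S :=
    (((hcG.mul continuousOn_const).mono hclb).integrableOn_compact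
      (isCompact_closedBall 0 r)).mono_set hScl
  have hi2 : IntegrableOn (fun z => (R z).im * (mg_psi ε (L z).im * ‖deriv L z‖ ^ 2)) S :=
    ((((Complex.continuous_im.comp_continuousOn dR.continuousOn).mul hcG).mono
      hclb).integrableOn_compact (isCompact_closedBall 0 r)).mono_set hScl
  refine setIntegral_mono_on hi1 hi2 hS ?_
  intro z hz
  rw [mul_comm]
  exact mul_le_mul_of_nonneg_right (hcR z hz)
    (mul_nonneg (mg_psi_nonneg hε _) (sq_nonneg _))

/-- General form of the growth theorem. -/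
theorem mean_growth_general {L F G R : ℂ → ℂ} (h : AchLift L F G R) {r : ℝ} (hr0 : 0 < r)
    (hr1 : r < 1) {H A B kp : ℝ → ℝ}
    (hH0 : ∀ t ∈ Ioo 0 r, 0 ≤ H t) (hA0 : ∀ t ∈ Ioo 0 r, 0 ≤ A t)
    (hB0 : ∀ t ∈ Ioo 0 r, 0 ≤ B t) (hk0 : ∀ t ∈ Ioo 0 r, 0 ≤ kp t)
    (hH : ∀ t ∈ Ioo 0 r, ∀ z : ℂ, ‖z‖ ≤ t → 1 / (R z).im ≤ H t)
    (hK : ∀ t ∈ Ioo 0 r, ∀ z : ℂ, ‖z‖ ≤ t → K L F G z 0 ≤ kp t ^ 2)
    (hAB : ∀ t ∈ Ioo 0 r, ∀ z : ℂ, ‖z‖ ≤ t → 1 / (R z).im ≤ A t ∨ K L F G z 0 ≤ B t ^ 2)
    (hint : IntervalIntegrable (fun t => (A t * kp t + H t * B t) / t) volume 0 r) :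
    ∫ θ in (0:ℝ)..(2 * Real.pi), |(L (circleMap 0 r θ) - L 0).im|
      ≤ 4 * ∫ t in (0:ℝ)..r, (A t * kp t + H t * B t) / t := by
  have hz0 : (0 : ℂ) ∈ ball (0 : ℂ) 1 := mem_ball_self one_pos
  have dG' : DifferentiableOn ℂ (deriv G) (ball 0 1) := h.dG.deriv isOpen_ball
  have hclb : closedBall (0 : ℂ) r ⊆ ball 0 1 := closedBall_subset_ball hr1
  have hpi := Real.pi_pos
  -- a bound for the derivative of G
  obtain ⟨C, hC⟩ := (isCompact_closedBall (0 : ℂ) r).exists_bound_of_continuousOn
    (dG'.continuousOn.mono hclb)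
  have hC0 : 0 ≤ C := (norm_nonneg _).trans (hC 0 (mem_closedBall_self hr0.le))
  have hGb : ∀ z ∈ closedBall (0 : ℂ) r, ‖G z - G 0‖ ≤ C * ‖z‖ := by
    intro z hz
    have := Convex.norm_image_sub_le_of_norm_deriv_le (𝕜 := ℂ) (f := G) (C := C)
      (s := closedBall (0 : ℂ) r) (x := 0) (y := z)
      (fun w hw => (h.dG w (hclb hw)).differentiableAt (isOpen_ball.mem_nhds (hclb hw)))
      hC (convex_closedBall 0 r) (mem_closedBall_self hr0.le) hz
    simpa using this
  -- a lower bound for Im R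
  obtain ⟨c0, hc0, hc0R⟩ : ∃ c0 : ℝ, 0 < c0 ∧ ∀ z ∈ closedBall (0 : ℂ) r, c0 ≤ (R z).im := by
    obtain ⟨z0, hz0, hmin⟩ := (isCompact_closedBall (0 : ℂ) r).exists_isMinOn
      ⟨0, mem_closedBall_self hr0.le⟩
      (Complex.continuous_im.comp_continuousOn (h.dR.continuousOn.mono hclb))
    exact ⟨(R z0).im, h.hR z0 (hclb hz0), fun z hz => hmin hz⟩
  -- normalised functions
  set L1 : ℂ → ℂ := fun z => L z - L 0 with hL1
  set F1 : ℂ → ℂ := fun z => F z - F 0 with hF1
  have dL1 : DifferentiableOn ℂ L1 (ball 0 1) := h.dL.sub_const _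
  have dF1 : DifferentiableOn ℂ F1 (ball 0 1) := h.dF.sub_const _
  have hdL1 : deriv L1 = deriv L := by
    funext z
    simp [hL1]
  have hdF1 : deriv F1 = deriv F := by
    funext z
    simp [hF1]
  have hinj : ∀ x ∈ ball (0 : ℂ) 1, ∀ y ∈ ball (0 : ℂ) 1, (F1 x).im = (F1 y).im →
      (L1 x).im = (L1 y).im → x = y := by
    intro x hx y hy h1 h2
    by_contra hne
    have h3 := h.hK x hx y hy hne
    unfold K at h3
    simp only [hF1, hL1, Complex.sub_im] at h1 h2
    rw [Complex.sub_im, Complex.sub_im, Complex.sub_im] at h3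
    have h4 : (F x).im - (F y).im = 0 := by linarith
    have h5 : (L x).im - (L y).im = 0 := by linarith
    rw [h4, h5] at h3
    simp at h3
  -- the bound for one set
  have hset : ∀ ε : ℝ, 0 < ε → ∀ t ∈ Ioo (0 : ℝ) r, ∀ S : Set ℂ, MeasurableSet S →
      S ⊆ ball 0 t → ∀ a b : ℝ, 0 ≤ a → 0 ≤ b → (∀ z ∈ S, 1 / (R z).im ≤ a) →
      (∀ z ∈ S, K L F G z 0 ≤ b ^ 2) →
      ∫ z in S, mg_psi ε (L1 z).im * ‖deriv L z‖ ^ 2 ≤
        4 * (a * b) + 4 * (Real.sqrt C * Real.sqrt ε * Real.sqrt t) / c0 := by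
    intro ε hε t ht S hSm hSt a b ha hb h1 h2
    have ht0 : 0 < t := ht.1
    have ht1 : t < 1 := ht.2.trans hr1
    rcases S.eq_empty_or_nonempty with rfl | hne
    · simp
      positivity
    obtain ⟨z1, hz1⟩ := hne
    have hSr : ∀ z ∈ S, z ∈ closedBall (0 : ℂ) r := fun z hz =>
      mem_closedBall_zero_iff.2 ((mem_ball_zero_iff.1 (hSt hz)).trans ht.2).le
    have ha' : 0 < a := by
      have h3 := h.hR z1 (hclb (hSr z1 hz1))
      have h4 : 0 < 1 / (R z1).im := by positivity
      exact lt_of_lt_of_le h4 (h1 z1 hz1)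
    have hW0 : 0 ≤ b + Real.sqrt C * Real.sqrt ε * Real.sqrt t := by positivity
    have hcpos : 0 < max (1 / a) c0 := lt_max_of_lt_right hc0
    have harea := mg_area_set (c := max (1 / a) c0) dL1 dF1 h.dR (by
        intro z hz
        rw [hdF1, hdL1]
        exact h.hF z hz) h.hR hinj ht1 hSm hSt hε hW0 (by
        intro z hz hzε
        have hzt : ‖z‖ < t := mem_ball_zero_iff.1 (hSt hz)
        have h5 := h2 z hz
        unfold K at h5
        have h6 : |(G z - G 0).im| ≤ C * t :=
          (Complex.abs_im_le_norm _).trans ((hGb z (hSr z hz)).trans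
            (mul_le_mul_of_nonneg_left hzt.le hC0))
        have h3 : (G z - G 0).im * (L z - L 0).im ≤ C * t * ε := by
          calc (G z - G 0).im * (L z - L 0).im ≤ |(G z - G 0).im * (L z - L 0).im| :=
                le_abs_self _
            _ = |(G z - G 0).im| * |(L z - L 0).im| := abs_mul _ _
            _ ≤ C * t * ε := mul_le_mul h6 hzε (abs_nonneg _) (by positivity)
        have h7 : ((F1 z).im) ^ 2 ≤ (b + Real.sqrt C * Real.sqrt ε * Real.sqrt t) ^ 2 := by
          have h8 : (Real.sqrt C * Real.sqrt ε * Real.sqrt t) ^ 2 = C * t * ε := by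
            rw [mul_pow, mul_pow, Real.sq_sqrt hC0, Real.sq_sqrt hε.le, Real.sq_sqrt ht0.le]
            ring
          have h9 : 0 ≤ b * (Real.sqrt C * Real.sqrt ε * Real.sqrt t) := by positivity
          show ((F z - F 0).im) ^ 2 ≤ _
          nlinarith
        exact abs_le_of_sq_le_sq h7 hW0)
      hcpos (by
        intro z hz
        refine max_le ?_ (hc0R z (hSr z hz))
        have h3 := h.hR z (hclb (hSr z hz))
        rw [div_le_iff₀ ha']
        have h4 := h1 z hz
        rw [div_le_iff₀ h3] at h4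
        linarith)
    rw [hdL1] at harea
    refine harea.trans ?_
    have e1 : 4 * b / max (1 / a) c0 ≤ 4 * (a * b) := by
      rw [div_le_iff₀ hcpos]
      have h3 : 1 ≤ a * max (1 / a) c0 := by
        calc (1 : ℝ) = a * (1 / a) := by field_simp
          _ ≤ a * max (1 / a) c0 := mul_le_mul_of_nonneg_left (le_max_left _ _) ha
      have h4 := mul_le_mul_of_nonneg_left h3 (mul_nonneg (by norm_num : (0 : ℝ) ≤ 4) hb)
      nlinarith
    have e2 : 4 * (Real.sqrt C * Real.sqrt ε * Real.sqrt t) / max (1 / a) c0 ≤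
        4 * (Real.sqrt C * Real.sqrt ε * Real.sqrt t) / c0 :=
      div_le_div_of_nonneg_left (by positivity) hc0 (le_max_right _ _)
    calc 4 * (b + Real.sqrt C * Real.sqrt ε * Real.sqrt t) / max (1 / a) c0
        = 4 * b / max (1 / a) c0 +
          4 * (Real.sqrt C * Real.sqrt ε * Real.sqrt t) / max (1 / a) c0 := by ring
      _ ≤ _ := add_le_add e1 e2
  -- bound for N
  have hN : ∀ ε : ℝ, 0 < ε → ∀ t ∈ Ioo (0 : ℝ) r, mg_N L1 (mg_phi1 ε) t ≤
      (2 / π) * (A t * kp t + H t * B t) +
        (4 / π) * (Real.sqrt C * Real.sqrt ε * Real.sqrt t / c0) := by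
    intro ε hε t ht
    have ht1 : t < 1 := ht.2.trans hr1
    rw [mg_stein dL1 (mg_phi1_deriv ε) (mg_psi_cont ε) ht.1 ht1, hdL1]
    have hcl : closedBall (0 : ℂ) t ⊆ ball 0 1 := closedBall_subset_ball ht1
    -- the two sets
    set S1 : Set ℂ := ball 0 t ∩ {z | 1 ≤ A t * (R z).im} with hS1
    have hS1m : MeasurableSet S1 := by
      have h1 : ContinuousOn (fun z => A t * (R z).im) (ball (0 : ℂ) t) :=
        continuousOn_const.mul (Complex.continuous_im.comp_continuousOn
          (h.dR.continuousOn.mono (ball_subset_closedBall.trans hcl)))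
      obtain ⟨V, hV, hV'⟩ := continuousOn_iff_isClosed.1 h1 (Ici 1) isClosed_Ici
      have : S1 = V ∩ ball 0 t := by
        rw [← hV', hS1]
        ext z
        simp only [mem_inter_iff, mem_ofPred_eq, mem_preimage, mem_Ici]
        tauto
      rw [this]
      exact hV.measurableSet.inter measurableSet_ball
    have hcG : ContinuousOn (fun z => mg_psi ε (L1 z).im * ‖deriv L z‖ ^ 2) (ball (0 : ℂ) 1) :=
      ((mg_psi_cont ε).comp_continuousOn
        (Complex.continuous_im.comp_continuousOn dL1.continuousOn)).mul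
        ((h.dL.deriv isOpen_ball).continuousOn.norm.pow 2)
    have hi : IntegrableOn (fun z => mg_psi ε (L1 z).im * ‖deriv L z‖ ^ 2) (ball (0 : ℂ) t) :=
      ((hcG.mono hcl).integrableOn_compact (isCompact_closedBall 0 t)).mono_set
        ball_subset_closedBall
    have hsplit := integral_inter_add_sdiff (μ := volume) (s := ball (0 : ℂ) t) hS1m hi
    have hI1 : ∫ z in ball (0 : ℂ) t ∩ S1, mg_psi ε (L1 z).im * ‖deriv L z‖ ^ 2 ≤
        4 * (A t * kp t) + 4 * (Real.sqrt C * Real.sqrt ε * Real.sqrt t) / c0 := by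
      refine hset ε hε t ht _ (measurableSet_ball.inter hS1m) inter_subset_left _ _
        (hA0 t ht) (hk0 t ht) ?_ ?_
      · intro z hz
        have h3 := h.hR z (hcl (ball_subset_closedBall hz.1))
        rw [div_le_iff₀ h3]
        exact hz.2.2
      · intro z hz
        exact hK t ht z (mem_ball_zero_iff.1 hz.1).le
    have hI2 : ∫ z in ball (0 : ℂ) t \ S1, mg_psi ε (L1 z).im * ‖deriv L z‖ ^ 2 ≤
        4 * (H t * B t) + 4 * (Real.sqrt C * Real.sqrt ε * Real.sqrt t) / c0 := by
      refine hset ε hε t ht _ (measurableSet_ball.diff hS1m) sdiff_subset _ _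
        (hH0 t ht) (hB0 t ht) ?_ ?_
      · intro z hz
        exact hH t ht z (mem_ball_zero_iff.1 hz.1).le
      · intro z hz
        rcases hAB t ht z (mem_ball_zero_iff.1 hz.1).le with h4 | h4
        · exfalso
          apply hz.2
          refine ⟨hz.1, ?_⟩
          have h3 := h.hR z (hcl (ball_subset_closedBall hz.1))
          rw [div_le_iff₀ h3] at h4
          exact h4
        · exact h4
    rw [← hsplit]
    calc 1 / (2 * π) * (_ + _) ≤ 1 / (2 * π) *
          ((4 * (A t * kp t) + 4 * (Real.sqrt C * Real.sqrt ε * Real.sqrt t) / c0) +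
          (4 * (H t * B t) + 4 * (Real.sqrt C * Real.sqrt ε * Real.sqrt t) / c0)) :=
          mul_le_mul_of_nonneg_left (add_le_add hI1 hI2) (by positivity)
      _ = _ := by
          field_simp
          ring
  -- integration
  set g : ℝ → ℝ := fun t => (A t * kp t + H t * B t) / t with hg
  have heps : ∀ ε : ℝ, 0 < ε → (mean fun x => |(L (pt r x) - L 0).im|) ≤
      ε + (2 / π) * (∫ t in (0:ℝ)..r, g t) +
        (8 / (π * c0)) * Real.sqrt C * Real.sqrt r * Real.sqrt ε := by
    intro ε hε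
    have hm : ∀ t ∈ Ioo (-1 : ℝ) 1, HasDerivAt (mg_m L1 (mg_phi ε))
        (mean fun x => mg_phi1 ε (L1 (pt t x)).im * (deriv L1 (pt t x) * cexp (x * I)).im) t :=
      fun t ht => mg_m_deriv dL1 (mg_phi_deriv ε) (mg_phi1_cont ε) ht
    set k : ℝ := (8 / (π * c0)) * Real.sqrt C * Real.sqrt ε with hk
    -- the function minus the square root
    have hder : ∀ t ∈ Ioo (0 : ℝ) r, HasDerivWithinAt
        (fun t => mg_m L1 (mg_phi ε) t - k * Real.sqrt t)
        ((mean fun x => mg_phi1 ε (L1 (pt t x)).im * (deriv L1 (pt t x) * cexp (x * I)).im) -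
          k * (1 / (2 * Real.sqrt t))) (Ioi t) t := by
      intro t ht
      exact ((hm t ⟨by linarith [ht.1], by linarith [ht.2]⟩).fun_sub
        ((Real.hasDerivAt_sqrt ht.1.ne').const_mul k)).hasDerivWithinAt
    have hcontm : ContinuousOn (fun t => mg_m L1 (mg_phi ε) t - k * Real.sqrt t) (Icc 0 r) := by
      intro t ht
      have h1 : ContinuousAt (mg_m L1 (mg_phi ε)) t :=
        (hm t ⟨by linarith [ht.1], by linarith [ht.2]⟩).continuousAt
      exact (h1.sub (continuousAt_const.mul
        Real.continuous_sqrt.continuousAt)).continuousWithinAt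
    have hgi : IntegrableOn (fun t => (2 / π) * g t) (Icc 0 r) := by
      rw [integrableOn_Icc_iff_integrableOn_Ioc]
      exact ((intervalIntegrable_iff_integrableOn_Ioc_of_le hr0.le).1 hint).const_mul _
    have hle := intervalIntegral.sub_le_integral_of_hasDeriv_right_of_le hr0.le hcontm hder hgi
      (by
        intro t ht
        have ht0 : 0 < t := ht.1
        have hst : 0 < Real.sqrt t := Real.sqrt_pos.2 ht0
        have h1 := hN ε hε t ht
        rw [mg_N_eq] at h1
        set M := (mean fun x => mg_phi1 ε (L1 (pt t x)).im *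
          (deriv L1 (pt t x) * cexp (x * I)).im) with hM
        have h2 : t * M ≤ t * ((2 / π) * g t + k * (1 / (2 * Real.sqrt t))) := by
          refine h1.trans (le_of_eq ?_)
          have hsq : t = Real.sqrt t * Real.sqrt t := (Real.mul_self_sqrt ht0.le).symm
          have e1 : t * (2 / π * g t) = 2 / π * (A t * kp t + H t * B t) := by
            rw [hg]
            field_simp
          have e2 : t * (k * (1 / (2 * Real.sqrt t))) =
              4 / π * (Real.sqrt C * Real.sqrt ε * Real.sqrt t / c0) := by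
            rw [hk]
            nth_rewrite 1 [hsq]
            field_simp
            ring
          rw [mul_add t, e1, e2, mul_add]
        have h3 := le_of_mul_le_mul_left h2 ht0
        linarith)
    have hm0 : mg_m L1 (mg_phi ε) 0 = ε := by
      unfold mg_m
      have : (fun x : ℝ => mg_phi ε (L1 (pt 0 x)).im) = fun _ => ε := by
        funext x
        have : pt 0 x = 0 := by unfold pt; simp
        rw [this]
        simp [hL1, mg_phi_zero]
      rw [this, mean_const]
    simp only [hm0, Real.sqrt_zero, mul_zero, sub_zero] at hle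
    rw [intervalIntegral.integral_const_mul] at hle
    have hmr : (mean fun x => |(L (pt r x) - L 0).im|) ≤ mg_m L1 (mg_phi ε) r := by
      have hrm : r ∈ Ioo (-1 : ℝ) 1 := ⟨by linarith, hr1⟩
      have hc1 : Continuous fun x => (L1 (pt r x)).im :=
        sliceR (G := fun t x => (L1 (pt t x)).im) (cim (mg_comp_pt dL1.continuousOn)) hrm
      have hcphi : Continuous (mg_phi ε) :=
        continuous_iff_continuousAt.2 fun y => (mg_phi_deriv ε y).continuousAt
      unfold mg_m
      exact mean_mono hc1.abs (hcphi.comp hc1) (fun x => mg_phi_ge hε _)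
    refine hmr.trans ?_
    have e5 : k * Real.sqrt r = 8 / (π * c0) * Real.sqrt C * Real.sqrt r * Real.sqrt ε := by
      rw [hk]; ring
    rw [← e5]
    linarith
  have hlim : (mean fun x => |(L (pt r x) - L 0).im|) ≤ (2 / π) * (∫ t in (0:ℝ)..r, g t) := by
    have ht : Tendsto (fun ε : ℝ => ε + (2 / π) * (∫ t in (0:ℝ)..r, g t) +
        (8 / (π * c0)) * Real.sqrt C * Real.sqrt r * Real.sqrt ε) (𝓝[>] 0)
        (𝓝 (0 + (2 / π) * (∫ t in (0:ℝ)..r, g t) +
          (8 / (π * c0)) * Real.sqrt C * Real.sqrt r * Real.sqrt 0)) := by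
      have hc : Continuous (fun ε : ℝ => ε + (2 / π) * (∫ t in (0:ℝ)..r, g t) +
        (8 / (π * c0)) * Real.sqrt C * Real.sqrt r * Real.sqrt ε) := by fun_prop
      exact (hc.tendsto 0).mono_left nhdsWithin_le_nhds
    have h1 := ge_of_tendsto ht (eventually_nhdsWithin_of_forall fun ε hε => heps ε hε)
    simpa using h1
  have hpt : ∀ x : ℝ, circleMap 0 r x = pt r x := by
    intro x
    unfold circleMap pt
    simp
  have hper : Function.Periodic (fun x : ℝ => |(L (circleMap 0 r x) - L 0).im|) (2 * π) := by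
    intro x
    simp only
    rw [periodic_circleMap]
  have h2 := hper.intervalIntegral_add_eq 0 (-π)
  rw [zero_add, show -π + 2 * π = π by ring] at h2
  rw [h2]
  have h3 : ∫ x in (-π)..π, |(L (circleMap 0 r x) - L 0).im| =
      (2 * π) * mean fun x => |(L (pt r x) - L 0).im| := by
    unfold mean
    simp only [hpt]
    field_simp
  rw [h3]
  calc 2 * π * mean (fun x => |(L (pt r x) - L 0).im|)
      ≤ 2 * π * ((2 / π) * (∫ t in (0:ℝ)..r, g t)) := by gcongr
    _ = _ := by
        field_simp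
        ring

end AllN24
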