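import Mathlib

/-!
# A family of convex functions close to the absolute value

`mg_phi ε` is a `C²` convex function, equal to `|y| + const` far away, whose second derivative
`mg_psi ε` is supported in `[-ε, ε]` and has integral `2`.
-/

open Set MeasureTheory Filter Topology

namespace AllN24

noncomputable def mg_psi (ε y : ℝ) : ℝ := 3 / (2 * ε) * max 0 (1 - (y / ε) ^ 2)

noncomputable def mg_phi1 (ε y : ℝ) : ℝ := ∫ u in (0:ℝ)..y, mg_psi ε u

noncomputable def mg_phi (ε y : ℝ) : ℝ := ε + ∫ u in (0:ℝ)..y, mg_phi1 ε u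

theorem mg_psi_cont (ε : ℝ) : Continuous (mg_psi ε) := by
  unfold mg_psi
  fun_prop

theorem mg_psi_nonneg {ε : ℝ} (hε : 0 < ε) (y : ℝ) : 0 ≤ mg_psi ε y := by
  unfold mg_psi
  have : 0 ≤ max 0 (1 - (y / ε) ^ 2) := le_max_left _ _
  positivity

theorem mg_psi_zero {ε : ℝ} (hε : 0 < ε) {y : ℝ} (hy : ε ≤ |y|) : mg_psi ε y = 0 := by
  unfold mg_psi
  rw [max_eq_left, mul_zero]
  have h1 : 1 ≤ |y / ε| := by
    rw [abs_div, abs_of_pos hε, one_le_div hε]
    exact hy
  have h2 : 1 ≤ (y / ε) ^ 2 := by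
    rw [← sq_abs]
    nlinarith
  linarith

theorem mg_psi_even (ε y : ℝ) : mg_psi ε (-y) = mg_psi ε y := by
  unfold mg_psi
  congr 2
  ring

theorem mg_psi_in {ε : ℝ} (hε : 0 < ε) {y : ℝ} (hy : |y| ≤ ε) :
    mg_psi ε y = 3 / (2 * ε) * (1 - (y / ε) ^ 2) := by
  unfold mg_psi
  rw [max_eq_right]
  have h1 : |y / ε| ≤ 1 := by
    rw [abs_div, abs_of_pos hε, div_le_one hε]
    exact hy
  have h2 : (y / ε) ^ 2 ≤ 1 := by
    rw [← sq_abs]
    nlinarith [abs_nonneg (y / ε)]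
  linarith

theorem mg_psi_int {ε : ℝ} (hε : 0 < ε) {a b : ℝ} (ha : -ε ≤ a) (hab : a ≤ b) (hb : b ≤ ε) :
    ∫ u in a..b, mg_psi ε u =
      3 / (2 * ε) * (b - b ^ 3 / (3 * ε ^ 2)) - 3 / (2 * ε) * (a - a ^ 3 / (3 * ε ^ 2)) := by
  have h1 : ∀ x ∈ uIcc a b, HasDerivAt (fun y => 3 / (2 * ε) * (y - y ^ 3 / (3 * ε ^ 2)))
      (mg_psi ε x) x := by
    intro x hx
    rw [uIcc_of_le hab] at hx
    rw [mg_psi_in hε (abs_le.2 ⟨by linarith [hx.1], by linarith [hx.2]⟩)]
    have h := (((hasDerivAt_id x).sub ((hasDerivAt_pow 3 x).div_const (3 * ε ^ 2))).const_mul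
      (3 / (2 * ε)))
    refine h.congr_deriv ?_
    field_simp
    ring
  exact intervalIntegral.integral_eq_sub_of_hasDerivAt h1 ((mg_psi_cont ε).intervalIntegrable _ _)

theorem mg_psi_int_half {ε : ℝ} (hε : 0 < ε) : ∫ u in (0:ℝ)..ε, mg_psi ε u = 1 := by
  rw [mg_psi_int hε (by linarith) hε.le le_rfl]
  field_simp
  ring

theorem mg_psi_int_full {ε : ℝ} (hε : 0 < ε) : ∫ u in (-ε)..ε, mg_psi ε u = 2 := by
  rw [mg_psi_int hε le_rfl (by linarith) le_rfl]
  field_simp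
  ring

theorem mg_phi1_deriv (ε y : ℝ) : HasDerivAt (mg_phi1 ε) (mg_psi ε y) y :=
  intervalIntegral.integral_hasDerivAt_right ((mg_psi_cont ε).intervalIntegrable _ _)
    ((mg_psi_cont ε).stronglyMeasurableAtFilter _ _) (mg_psi_cont ε).continuousAt

theorem mg_phi1_cont (ε : ℝ) : Continuous (mg_phi1 ε) :=
  continuous_iff_continuousAt.2 fun y => (mg_phi1_deriv ε y).continuousAt

theorem mg_phi_deriv (ε y : ℝ) : HasDerivAt (mg_phi ε) (mg_phi1 ε y) y :=
  (intervalIntegral.integral_hasDerivAt_right ((mg_phi1_cont ε).intervalIntegrable _ _)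
    ((mg_phi1_cont ε).stronglyMeasurableAtFilter _ _) (mg_phi1_cont ε).continuousAt).const_add ε

theorem mg_phi_zero (ε : ℝ) : mg_phi ε 0 = ε := by
  unfold mg_phi
  simp

theorem mg_phi1_nonneg {ε : ℝ} (hε : 0 < ε) {y : ℝ} (hy : 0 ≤ y) : 0 ≤ mg_phi1 ε y :=
  intervalIntegral.integral_nonneg hy fun u _ => mg_psi_nonneg hε u

theorem mg_phi1_one {ε : ℝ} (hε : 0 < ε) {y : ℝ} (hy : ε ≤ y) : mg_phi1 ε y = 1 := by
  unfold mg_phi1
  rw [← intervalIntegral.integral_add_adjacent_intervals (b := ε)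
    ((mg_psi_cont ε).intervalIntegrable _ _) ((mg_psi_cont ε).intervalIntegrable _ _),
    mg_psi_int_half hε]
  have : ∫ u in ε..y, mg_psi ε u = 0 := by
    rw [intervalIntegral.integral_congr (g := fun _ => (0 : ℝ))]
    · simp
    · intro u hu
      rw [uIcc_of_le hy] at hu
      exact mg_psi_zero hε (hu.1.trans (le_abs_self u))
  rw [this, add_zero]

theorem mg_phi1_odd (ε y : ℝ) : mg_phi1 ε (-y) = - mg_phi1 ε y := by
  unfold mg_phi1
  have h := intervalIntegral.integral_comp_neg (a := 0) (b := y) (fun u => mg_psi ε u)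
  simp only [mg_psi_even, neg_zero] at h
  rw [h, intervalIntegral.integral_symm]

theorem mg_phi_even (ε y : ℝ) : mg_phi ε (-y) = mg_phi ε y := by
  unfold mg_phi
  have h := intervalIntegral.integral_comp_neg (a := 0) (b := y) (fun u => mg_phi1 ε u)
  simp only [mg_phi1_odd, neg_zero, intervalIntegral.integral_neg] at h
  rw [intervalIntegral.integral_symm, ← h, neg_neg]

theorem mg_phi_ge_pos {ε : ℝ} (hε : 0 < ε) {y : ℝ} (hy : 0 ≤ y) : y ≤ mg_phi ε y := by
  unfold mg_phi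
  rcases le_total y ε with h | h
  · have : 0 ≤ ∫ u in (0:ℝ)..y, mg_phi1 ε u :=
      intervalIntegral.integral_nonneg hy fun u hu => mg_phi1_nonneg hε hu.1
    linarith
  · rw [← intervalIntegral.integral_add_adjacent_intervals (b := ε)
      ((mg_phi1_cont ε).intervalIntegrable _ _) ((mg_phi1_cont ε).intervalIntegrable _ _)]
    have h1 : 0 ≤ ∫ u in (0:ℝ)..ε, mg_phi1 ε u :=
      intervalIntegral.integral_nonneg hε.le fun u hu => mg_phi1_nonneg hε hu.1
    have h2 : ∫ u in ε..y, mg_phi1 ε u = y - ε := by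
      rw [intervalIntegral.integral_congr (g := fun _ => (1 : ℝ))]
      · simp
      · intro u hu
        rw [uIcc_of_le h] at hu
        exact mg_phi1_one hε hu.1
    linarith

theorem mg_phi_ge {ε : ℝ} (hε : 0 < ε) (y : ℝ) : |y| ≤ mg_phi ε y := by
  rcases le_total 0 y with h | h
  · rw [abs_of_nonneg h]
    exact mg_phi_ge_pos hε h
  · rw [abs_of_nonpos h, ← mg_phi_even]
    exact mg_phi_ge_pos hε (by linarith)

end AllN24
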